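import Mathlib
set_option autoImplicit false

/-! # Zeros per period and the operator `-u'' + Q u` -/

namespace Pool.Agent.Q167.LV

open Set Filter Topology

/-- `u` has (at least) `n` zeros per period `L` -/
def ZZ (L : ℝ) (u : ℝ → ℝ) (n : ℕ) : Prop :=
  ∃ t : ℕ → ℝ, StrictMono t ∧ (∀ i, t (i + n) = t i + L) ∧ ∀ i, u (t i) = 0

lemma shift {L : ℝ} {n : ℕ} {t : ℕ → ℝ} (ht : ∀ i, t (i + n) = t i + L) (r k : ℕ) :
    t (r + n * k) = t r + k * L := by
  induction k with
  | zero => simp
  | succ k ih =>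
    have : r + n * (k + 1) = (r + n * k) + n := by ring
    rw [this, ht, ih]; push_cast; ring

lemma choice {L : ℝ} {n : ℕ} (hn : 0 < n) {t : ℕ → ℝ} (ht : ∀ i, t (i + n) = t i + L)
    {P : ℝ → Prop} (hP : ∀ x, P x → P (x + L))
    (h : ∀ i < n, ∃ s, t i < s ∧ s < t (i + 1) ∧ P s) :
    ∃ s : ℕ → ℝ, (∀ i, s (i + n) = s i + L) ∧ ∀ i, t i < s i ∧ s i < t (i + 1) ∧ P (s i) := by
  choose! s₀ h1 h2 h3 using h
  have hPk : ∀ (k : ℕ) x, P x → P (x + k * L) := by
    intro k
    induction k with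
    | zero => intro x hx; simpa using hx
    | succ k ih =>
      intro x hx
      have := hP _ (ih x hx)
      push_cast
      rw [show x + ((k : ℝ) + 1) * L = x + k * L + L by ring]
      exact this
  refine ⟨fun i => s₀ (i % n) + (i / n : ℕ) * L, ?_, ?_⟩
  · intro i
    simp only [Nat.add_mod_right]
    rw [Nat.add_div_right i hn]
    push_cast
    ring
  · intro i
    have hi : i % n < n := Nat.mod_lt _ hn
    have e1 : t i = t (i % n) + (i / n : ℕ) * L := by
      rw [← shift ht, Nat.mod_add_div]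
    have e2 : t (i + 1) = t (i % n + 1) + (i / n : ℕ) * L := by
      rw [← shift ht]
      congr 1
      have := Nat.mod_add_div i n
      omega
    refine ⟨?_, ?_, hPk _ _ (h3 _ hi)⟩
    · rw [e1]; have := h1 _ hi; linarith
    · rw [e2]; have := h2 _ hi; linarith

/-- second derivative test -/
lemma sd_max {u u' : ℝ → ℝ} {s c : ℝ} (hu : ∀ x, HasDerivAt u (u' x) x) (hu' : HasDerivAt u' c s)
    (h : IsLocalMax u s) : c ≤ 0 := by
  by_contra hc
  push Not at hc
  have hd : deriv u = u' := funext fun x => (hu x).deriv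
  have h0 : u' s = 0 := h.hasDerivAt_eq_zero (hu s)
  have hmin : IsLocalMin u s := by
    apply isLocalMin_of_deriv_deriv_pos
    · rw [hd, hu'.deriv]; exact hc
    · rw [hd]; exact h0
    · exact (hu s).continuousAt
  have hconst : u =ᶠ[𝓝 s] fun _ => u s := by
    filter_upwards [h, hmin] with x h1 h2
    exact le_antisymm h1 h2
  have hder : u' =ᶠ[𝓝 s] fun _ => 0 := by
    have := hconst.deriv
    rw [hd] at this
    filter_upwards [this] with x hx
    rw [hx]; simp
  have h3 : deriv u' s = 0 := by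
    rw [hder.deriv_eq]; simp
  rw [hu'.deriv] at h3
  linarith

lemma sd_min {u u' : ℝ → ℝ} {s c : ℝ} (hu : ∀ x, HasDerivAt u (u' x) x) (hu' : HasDerivAt u' c s)
    (h : IsLocalMin u s) : 0 ≤ c := by
  have h1 : IsLocalMax (fun x => -u x) s := h.neg
  have := sd_max (u := fun x => -u x) (u' := fun x => -u' x) (c := -c) (fun x => (hu x).neg) hu'.neg h1
  linarith

/-- a zero of `v` -/
lemma zero_between {u u' u'' Q v : ℝ → ℝ} (hu : ∀ x, HasDerivAt u (u' x) x)
    (hu' : ∀ x, HasDerivAt u' (u'' x) x) (hv : Continuous v) (hvd : ∀ x, v x = -u'' x + Q x * u x)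
    (hQ : ∀ x, 0 < Q x) {α τ β : ℝ} (h1 : α < τ) (h2 : τ < β) (h0 : u τ = 0)
    (ha : 0 < u α * v α) (hb : 0 < u β * v β) (hpos : 0 < u α) : ∃ r, α < r ∧ r < β ∧ v r = 0 := by
  have hva : 0 < v α := by
    by_contra hcon
    push Not at hcon
    nlinarith
  -- a point with `v ≤ 0`
  have key : ∃ y, α < y ∧ y ≤ β ∧ v y ≤ 0 ∧ (y = β → v y < 0) := by
    rcases lt_trichotomy (u β) 0 with h | h | h
    · have : v β < 0 := by
        by_contra hcon
        push Not at hcon
        nlinarith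
      exact ⟨β, h1.trans h2, le_rfl, this.le, fun _ => this⟩
    · rw [h] at hb; simp at hb
    · obtain ⟨y, hy, hmin⟩ := isCompact_Icc.exists_isMinOn (s := Icc α β) ⟨τ, h1.le, h2.le⟩
        (fun x _ => (hu x).continuousAt.continuousWithinAt)
      have hy0 : u y ≤ 0 := by
        have := hmin (show τ ∈ Icc α β from ⟨h1.le, h2.le⟩)
        simpa [h0] using this
      have hya : α < y := lt_of_le_of_ne hy.1 (fun e => by rw [← e] at hy0; linarith)
      have hyb : y < β := lt_of_le_of_ne hy.2 (fun e => by rw [e] at hy0; linarith)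
      have hloc : IsLocalMin u y := hmin.isLocalMin (Icc_mem_nhds hya hyb)
      have h3 := sd_min hu (hu' y) hloc
      refine ⟨y, hya, hyb.le, ?_, fun e => absurd e hyb.ne⟩
      rw [hvd]
      have := hQ y
      nlinarith
  obtain ⟨y, hy1, hy2, hy3, hy4⟩ := key
  obtain ⟨r, hr, hr0⟩ := intermediate_value_Icc' hy1.le hv.continuousOn (show (0 : ℝ) ∈ Icc (v y) (v α) from ⟨hy3, hva.le⟩)
  refine ⟨r, lt_of_le_of_ne hr.1 (fun e => by rw [← e] at hr0; linarith), ?_, hr0⟩
  rcases lt_or_eq_of_le (hr.2.trans hy2) with h | h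
  · exact h
  · have e1 : y = β := le_antisymm hy2 (by rw [← h]; exact hr.2)
    have := hy4 e1
    rw [e1] at this
    rw [h] at hr0
    linarith

lemma zero_between' {u u' u'' Q v : ℝ → ℝ} (hu : ∀ x, HasDerivAt u (u' x) x)
    (hu' : ∀ x, HasDerivAt u' (u'' x) x) (hv : Continuous v) (hvd : ∀ x, v x = -u'' x + Q x * u x)
    (hQ : ∀ x, 0 < Q x) {α τ β : ℝ} (h1 : α < τ) (h2 : τ < β) (h0 : u τ = 0)
    (ha : 0 < u α * v α) (hb : 0 < u β * v β) : ∃ r, α < r ∧ r < β ∧ v r = 0 := by
  rcases lt_trichotomy (u α) 0 with h | h | h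
  · obtain ⟨r, hr1, hr2, hr3⟩ := zero_between (u := fun x => -u x) (u' := fun x => -u' x)
      (u'' := fun x => -u'' x) (Q := Q) (v := fun x => -v x) (fun x => (hu x).neg) (fun x => (hu' x).neg)
      hv.neg (fun x => by rw [hvd]; ring) hQ h1 h2 (by simp [h0]) (by simpa using ha) (by simpa using hb)
      (by simpa using h)
    exact ⟨r, hr1, hr2, by simpa using hr3⟩
  · rw [h] at ha; simp at ha
  · exact zero_between hu hu' hv hvd hQ h1 h2 h0 ha hb h

/-- the number of zeros per period does not decrease -/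
lemma step {L : ℝ} {n : ℕ} (hn : 0 < n) {u u' u'' Q v : ℝ → ℝ} (hu : ∀ x, HasDerivAt u (u' x) x)
    (hu' : ∀ x, HasDerivAt u' (u'' x) x) (hv : Continuous v) (hvd : ∀ x, v x = -u'' x + Q x * u x)
    (hQ : ∀ x, 0 < Q x) (hup : Function.Periodic u L) (hvp : Function.Periodic v L)
    (hne : ∀ a b, a < b → ∃ x ∈ Ioo a b, u x ≠ 0) (h : ZZ L u n) : ZZ L v n := by
  obtain ⟨t, htm, htp, ht0⟩ := h
  obtain ⟨s, hsp, hs⟩ := choice (P := fun x => 0 < u x * v x) hn htp
    (fun x hx => by rw [hup x, hvp x]; exact hx) (by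
      intro i _
      have hlt : t i < t (i + 1) := htm (Nat.lt_succ_self i)
      obtain ⟨x₁, hx₁, hne1⟩ := hne _ _ hlt
      obtain ⟨y, hy, hmax⟩ := isCompact_Icc.exists_isMaxOn (s := Icc (t i) (t (i + 1)))
        ⟨x₁, hx₁.1.le, hx₁.2.le⟩ (f := fun x => |u x|)
        (fun x _ => ((hu x).continuousAt.abs).continuousWithinAt)
      have hpos : 0 < |u y| := by
        have h1 : |u x₁| ≤ |u y| := hmax (show x₁ ∈ Icc (t i) (t (i + 1)) from ⟨hx₁.1.le, hx₁.2.le⟩)
        exact lt_of_lt_of_le (abs_pos.2 hne1) h1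
      have hya : t i < y := lt_of_le_of_ne hy.1 (fun e => by rw [← e, ht0] at hpos; simp at hpos)
      have hyb : y < t (i + 1) := lt_of_le_of_ne hy.2 (fun e => by rw [e, ht0] at hpos; simp at hpos)
      have hmem := Icc_mem_nhds hya hyb
      have hmax' : ∀ᶠ x in 𝓝 y, |u x| ≤ |u y| := by
        filter_upwards [hmem] with x hx
        exact hmax hx
      refine ⟨y, hya, hyb, ?_⟩
      have hq := hQ y
      rcases lt_or_gt_of_ne (abs_pos.1 hpos) with h | h
      · have hloc : IsLocalMin u y := by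
          filter_upwards [hmax'] with x hx
          rw [abs_of_neg h] at hx
          have := neg_abs_le (u x)
          linarith
        have h3 := sd_min hu (hu' y) hloc
        have h4 : v y < 0 := by rw [hvd]; nlinarith
        exact mul_pos_of_neg_of_neg h h4
      · have hloc : IsLocalMax u y := by
          filter_upwards [hmax'] with x hx
          rw [abs_of_pos h] at hx
          have := le_abs_self (u x)
          linarith
        have h3 := sd_max hu (hu' y) hloc
        have h4 : 0 < v y := by rw [hvd]; nlinarith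
        exact mul_pos h h4)
  obtain ⟨r, hrp, hr⟩ := choice (P := fun x => v x = 0) hn hsp
    (fun x hx => by rw [hvp x]; exact hx) (by
      intro i _
      exact zero_between' hu hu' hv hvd hQ (hs i).2.1 (hs (i + 1)).1 (ht0 (i + 1)) (hs i).2.2
        (hs (i + 1)).2.2)
  refine ⟨r, strictMono_nat_of_lt_succ fun i => (hr i).2.1.trans (hr (i + 1)).1, hrp, fun i => (hr i).2.2⟩

end Pool.Agent.Q167.LV
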