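import Mathlib
import Pool.Agent.Q167.LV.One
set_option autoImplicit false

/-! # Sturm–Hurwitz for finite sums of solutions of `u'' + (p + κ) u = 0` -/

namespace Pool.Agent.Q167.LV

open Set Filter Topology

lemma normalise {L : ℝ} (hL : 0 < L) {n : ℕ} (hn : 0 < n) {w : ℝ → ℝ} (hper : Function.Periodic w L)
    (hz : ZZ L w n) : ∃ t : ℕ → ℝ, StrictMono t ∧ t n = t 0 + L ∧ 0 ≤ t 0 ∧ t 0 ≤ L ∧ ∀ i, w (t i) = 0 := by
  obtain ⟨t, htm, htp, ht0⟩ := hz
  set k : ℤ := ⌊t 0 / L⌋ with hk
  have h1 : (k : ℝ) * L ≤ t 0 := by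
    have := Int.floor_le (t 0 / L)
    rw [le_div_iff₀ hL] at this
    exact this
  have h2 : t 0 ≤ (k : ℝ) * L + L := by
    have := (Int.lt_floor_add_one (t 0 / L)).le
    rw [div_le_iff₀ hL] at this
    linarith
  refine ⟨fun i => t i - k * L, ?_, ?_, ?_, ?_, ?_⟩
  · intro i j hij
    have := htm hij
    show t i - k * L < t j - k * L
    linarith
  · have := htp 0
    rw [zero_add] at this
    simp only
    rw [this]; ring
  · simp only; linarith
  · simp only; linarith
  · intro i
    simp only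
    rw [hper.sub_int_mul_eq k, ht0]

lemma limit {L : ℝ} (hL : 0 < L) {n : ℕ} (hn : 0 < n) {v v' : ℝ → ℝ} {w w' : ℕ → ℝ → ℝ}
    (hw : ∀ m x, HasDerivAt (w m) (w' m x) x)
    (hlim : ∀ (φ : ℕ → ℕ) (x : ℕ → ℝ) (a : ℝ), Tendsto φ atTop atTop → Tendsto x atTop (𝓝 a) →
      Tendsto (fun m => w (φ m) (x m)) atTop (𝓝 (v a)))
    (hlim' : ∀ (φ : ℕ → ℕ) (x : ℕ → ℝ) (a : ℝ), Tendsto φ atTop atTop → Tendsto x atTop (𝓝 a) →
      Tendsto (fun m => w' (φ m) (x m)) atTop (𝓝 (v' a)))
    (hper : ∀ m, Function.Periodic (w m) L) (hz : ∀ m, ZZ L (w m) n)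
    (hs : ∀ x, v x = 0 → v' x ≠ 0) :
    ∃ t : ℕ → ℝ, t n = t 0 + L ∧ (∀ i < n, t i < t (i + 1)) ∧ ∀ i ≤ n, v (t i) = 0 := by
  choose t htm htn ht0 htL htz using fun m => normalise hL hn (hper m) (hz m)
  have hmem : ∀ m i, i ≤ n → t m i ∈ Icc (0 : ℝ) (2 * L) := by
    intro m i hi
    have h1 := (htm m).monotone (Nat.zero_le i)
    have h2 := (htm m).monotone hi
    have h3 := ht0 m
    have h4 := htL m
    have h5 := htn m
    exact ⟨by linarith, by linarith⟩
  obtain ⟨a, -, ψ, hψ, ha⟩ := (isCompact_univ_pi (fun _ : Fin (n + 1) => isCompact_Icc (a := (0 : ℝ)) (b := 2 * L))).tendsto_subseq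
    (x := fun m (i : Fin (n + 1)) => t m i) (fun m i _ => hmem m i (Nat.lt_succ_iff.1 i.2))
  have hψt : Tendsto ψ atTop atTop := hψ.tendsto_atTop
  have hat : ∀ i : Fin (n + 1), Tendsto (fun m => t (ψ m) i) atTop (𝓝 (a i)) := by
    intro i
    exact (tendsto_pi_nhds.1 ha) i
  let T : ℕ → ℝ := fun i => if h : i ≤ n then a ⟨i, Nat.lt_succ_of_le h⟩ else 0
  have hT : ∀ i (h : i ≤ n), Tendsto (fun m => t (ψ m) i) atTop (𝓝 (T i)) := by
    intro i h
    have := hat ⟨i, Nat.lt_succ_of_le h⟩
    simp only [T, dif_pos h]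
    exact this
  have hzero : ∀ i ≤ n, v (T i) = 0 := by
    intro i hi
    have h1 := hlim ψ (fun m => t (ψ m) i) (T i) hψt (hT i hi)
    have h2 : (fun m => w (ψ m) (t (ψ m) i)) = fun _ => 0 := by
      ext m; exact htz _ _
    rw [h2] at h1
    exact tendsto_nhds_unique h1 tendsto_const_nhds
  refine ⟨T, ?_, ?_, hzero⟩
  · have h1 := hT n le_rfl
    have h2 := (hT 0 (Nat.zero_le _)).add_const L
    have h3 : (fun m => t (ψ m) n) = fun m => t (ψ m) 0 + L := by
      ext m; exact htn _
    rw [h3] at h1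
    exact tendsto_nhds_unique h1 h2
  · intro i hi
    have hle : T i ≤ T (i + 1) :=
      le_of_tendsto_of_tendsto' (hT i hi.le) (hT (i + 1) hi) fun m => (htm (ψ m) (Nat.lt_succ_self i)).le
    rcases lt_or_eq_of_le hle with h | h
    · exact h
    · exfalso
      have hR : ∀ m, ∃ c ∈ Ioo (t (ψ m) i) (t (ψ m) (i + 1)), w' (ψ m) c = 0 := by
        intro m
        apply exists_hasDerivAt_eq_zero (htm (ψ m) (Nat.lt_succ_self i))
          (fun x _ => (hw (ψ m) x).continuousAt.continuousWithinAt)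
        · rw [htz, htz]
        · intro x _; exact hw _ x
      choose c hc hc0 using hR
      have hct : Tendsto c atTop (𝓝 (T i)) := by
        refine tendsto_of_tendsto_of_tendsto_of_le_of_le (hT i hi.le) ?_ (fun m => (hc m).1.le) (fun m => (hc m).2.le)
        rw [h]
        exact hT (i + 1) hi
      have h1 := hlim' ψ c (T i) hψt hct
      have h2 : (fun m => w' (ψ m) (c m)) = fun _ => 0 := by
        ext m; exact hc0 m
      rw [h2] at h1
      exact hs _ (hzero i hi.le) (tendsto_nhds_unique h1 tendsto_const_nhds)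

/-- a solution with a double zero vanishes -/
lemma unique_zero {v v' P : ℝ → ℝ} {C : ℝ} (hv : ∀ x, HasDerivAt v (v' x) x)
    (hv' : ∀ x, HasDerivAt v' (-(P x * v x)) x) (hP : ∀ x, |P x| ≤ C) {x₀ : ℝ} (h0 : v x₀ = 0)
    (h0' : v' x₀ = 0) (x : ℝ) : v x = 0 := by
  set D : ℝ := 1 + C with hD
  have hE : ∀ y, HasDerivAt (fun z => v z ^ 2 + v' z ^ 2) (2 * v y * v' y + 2 * v' y * (-(P y * v y))) y := by
    intro y
    have := ((hv y).fun_pow 2).fun_add ((hv' y).fun_pow 2)
    refine this.congr_deriv ?_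
    push_cast
    ring
  have hbound : ∀ y, |2 * v y * v' y + 2 * v' y * (-(P y * v y))| ≤ D * (v y ^ 2 + v' y ^ 2) := by
    intro y
    have h1 : 2 * v y * v' y + 2 * v' y * (-(P y * v y)) = (1 - P y) * (2 * v y * v' y) := by ring
    rw [h1, abs_mul]
    have h2 : |1 - P y| ≤ D := by
      have := hP y
      calc |1 - P y| ≤ |(1 : ℝ)| + |P y| := abs_sub _ _
        _ ≤ D := by rw [abs_one]; linarith
    have h3 : |2 * v y * v' y| ≤ v y ^ 2 + v' y ^ 2 := by
      rw [abs_le]
      constructor <;> nlinarith [sq_nonneg (v y + v' y), sq_nonneg (v y - v' y)]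
    exact mul_le_mul h2 h3 (abs_nonneg _) (le_trans (abs_nonneg _) h2)
  have hE0 : v x₀ ^ 2 + v' x₀ ^ 2 = 0 := by rw [h0, h0']; ring
  have hfin : v x ^ 2 + v' x ^ 2 ≤ 0 := by
    rcases le_total x₀ x with hx | hx
    · have hanti : Antitone fun z => (v z ^ 2 + v' z ^ 2) * Real.exp (-(D * z)) := by
        have hd : ∀ y, HasDerivAt (fun z => (v z ^ 2 + v' z ^ 2) * Real.exp (-(D * z)))
            ((2 * v y * v' y + 2 * v' y * (-(P y * v y))) * Real.exp (-(D * y)) +
              (v y ^ 2 + v' y ^ 2) * (Real.exp (-(D * y)) * (-D))) y := by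
          intro y
          apply (hE y).mul
          have h1 : HasDerivAt (fun z => -(D * z)) (-D) y := by
            have h2 := ((hasDerivAt_id y).const_mul D).fun_neg
            rw [mul_one] at h2
            exact h2
          exact h1.exp
        apply antitone_of_deriv_nonpos (fun y => (hd y).differentiableAt)
        intro y
        rw [(hd y).deriv]
        have := (abs_le.1 (hbound y)).2
        have he := Real.exp_pos (-(D * y))
        nlinarith
      have := hanti hx
      simp only [hE0, zero_mul] at this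
      have he := Real.exp_pos (-(D * x))
      by_contra hcon
      push Not at hcon
      have := mul_pos hcon he
      linarith
    · have hmono : Monotone fun z => (v z ^ 2 + v' z ^ 2) * Real.exp (D * z) := by
        have hd : ∀ y, HasDerivAt (fun z => (v z ^ 2 + v' z ^ 2) * Real.exp (D * z))
            ((2 * v y * v' y + 2 * v' y * (-(P y * v y))) * Real.exp (D * y) +
              (v y ^ 2 + v' y ^ 2) * (Real.exp (D * y) * D)) y := by
          intro y
          apply (hE y).mul
          have h1 : HasDerivAt (fun z => D * z) D y := by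
            have h2 := (hasDerivAt_id y).const_mul D
            rw [mul_one] at h2
            exact h2
          exact h1.exp
        apply monotone_of_deriv_nonneg (fun y => (hd y).differentiableAt)
        intro y
        rw [(hd y).deriv]
        have := (abs_le.1 (hbound y)).1
        have he := Real.exp_pos (D * y)
        nlinarith
      have := hmono hx
      simp only [hE0, zero_mul] at this
      have he := Real.exp_pos (D * x)
      by_contra hcon
      push Not at hcon
      have := mul_pos hcon he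
      linarith
  nlinarith [sq_nonneg (v x), sq_nonneg (v' x)]

/-- one-sided estimate -/
lemma drop {v v' P : ℝ → ℝ} {K : ℝ} (hK : 0 < K) (hv : ∀ x, HasDerivAt v (v' x) x)
    (hv' : ∀ x, HasDerivAt v' (-(P x * v x)) x) (hP : ∀ x, P x ≤ K ^ 2) {s β : ℝ} (hsβ : s ≤ β)
    (h0 : v' s = 0) (hpos : ∀ x ∈ Icc s β, 0 ≤ v x) (hle : ∀ x ∈ Icc s β, v x ≤ v s)
    (hs : 0 < v s) (hβ : v β = 0) : 1 ≤ K * (β - s) := by
  -- `v' ≥ -K² A (x - s)`
  have hC : 0 ≤ K ^ 2 := sq_nonneg K
  have h1 : ∀ x ∈ Icc s β, 0 ≤ v' x + K ^ 2 * v s * (x - s) := by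
    have hm : MonotoneOn (fun x => v' x + K ^ 2 * v s * (x - s)) (Icc s β) := by
      apply monotoneOn_of_deriv_nonneg (convex_Icc s β)
      · intro x _
        have : HasDerivAt (fun x => v' x + K ^ 2 * v s * (x - s)) (-(P x * v x) + K ^ 2 * v s * 1) x :=
          (hv' x).add (((hasDerivAt_id x).sub_const s).const_mul _)
        exact this.continuousAt.continuousWithinAt
      · intro x _
        have : HasDerivAt (fun x => v' x + K ^ 2 * v s * (x - s)) (-(P x * v x) + K ^ 2 * v s * 1) x :=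
          (hv' x).add (((hasDerivAt_id x).sub_const s).const_mul _)
        exact this.differentiableAt.differentiableWithinAt
      · intro x hx
        rw [interior_Icc] at hx
        have : HasDerivAt (fun x => v' x + K ^ 2 * v s * (x - s)) (-(P x * v x) + K ^ 2 * v s * 1) x :=
          (hv' x).add (((hasDerivAt_id x).sub_const s).const_mul _)
        rw [this.deriv]
        have a1 := hpos x ⟨hx.1.le, hx.2.le⟩
        have a2 := hle x ⟨hx.1.le, hx.2.le⟩
        have a3 := hP x
        nlinarith [mul_le_mul_of_nonneg_right a3 a1, mul_le_mul_of_nonneg_left a2 hC]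
    intro x hx
    have := hm (left_mem_Icc.2 hsβ) hx hx.1
    simpa [h0] using this
  have h2 : MonotoneOn (fun x => v x + K ^ 2 * v s * (x - s) ^ 2 / 2) (Icc s β) := by
    have hd : ∀ x, HasDerivAt (fun x => v x + K ^ 2 * v s * (x - s) ^ 2 / 2)
        (v' x + K ^ 2 * v s * (x - s)) x := by
      intro x
      have e1 : HasDerivAt (fun x : ℝ => (x - s) ^ 2) (2 * (x - s)) x := by
        have := (((hasDerivAt_id x).sub_const s).fun_pow 2)
        refine this.congr_deriv ?_
        push_cast
        simp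
      have e2 := (hv x).fun_add ((e1.const_mul (K ^ 2 * v s)).div_const 2)
      refine e2.congr_deriv ?_
      ring
    apply monotoneOn_of_deriv_nonneg (convex_Icc s β)
    · intro x _; exact (hd x).continuousAt.continuousWithinAt
    · intro x _; exact (hd x).differentiableAt.differentiableWithinAt
    · intro x hx
      rw [interior_Icc] at hx
      rw [(hd x).deriv]
      exact h1 x ⟨hx.1.le, hx.2.le⟩
  have h3 := h2 (left_mem_Icc.2 hsβ) (right_mem_Icc.2 hsβ) hsβ
  simp only [sub_self, hβ] at h3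
  have h4 : 1 ≤ (K * (β - s)) ^ 2 / 2 := by
    have : v s * 1 ≤ v s * ((K * (β - s)) ^ 2 / 2) := by nlinarith
    exact le_of_mul_le_mul_left this hs
  have h5 : 0 ≤ K * (β - s) := mul_nonneg hK.le (by linarith)
  nlinarith

lemma gap {v v' P : ℝ → ℝ} {K : ℝ} (hK : 0 < K) (hv : ∀ x, HasDerivAt v (v' x) x)
    (hv' : ∀ x, HasDerivAt v' (-(P x * v x)) x) (hP : ∀ x, P x ≤ K ^ 2)
    (hs : ∀ x, v x = 0 → v' x ≠ 0) {α β : ℝ} (hαβ : α < β) (hα : v α = 0) (hβ : v β = 0) :
    1 ≤ K * (β - α) := by
  have hcont : Continuous v := continuous_iff_continuousAt.2 fun x => (hv x).continuousAt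
  -- maximum of `|v|`
  obtain ⟨s, hsm, hmax⟩ := isCompact_Icc.exists_isMaxOn (s := Icc α β) ⟨α, le_rfl, hαβ.le⟩
    (f := fun x => |v x|) hcont.abs.continuousOn
  have hpos : 0 < |v s| := by
    by_contra hcon
    have hz : ∀ x ∈ Icc α β, v x = 0 := by
      intro x hx
      have := hmax hx
      simp only [mem_ofPred_eq] at this
      have h2 := abs_nonneg (v x)
      exact abs_eq_zero.1 (by linarith)
    obtain ⟨c, hc, hc0⟩ := exists_hasDerivAt_eq_zero hαβ hcont.continuousOn (by rw [hα, hβ]) (fun x _ => hv x)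
    exact hs c (hz c ⟨hc.1.le, hc.2.le⟩) hc0
  have hsa : α < s := lt_of_le_of_ne hsm.1 (fun e => by rw [← e, hα] at hpos; simp at hpos)
  have hsb : s < β := lt_of_le_of_ne hsm.2 (fun e => by rw [e, hβ] at hpos; simp at hpos)
  -- reduce to positive sign
  have key : ∀ (f f' : ℝ → ℝ), (∀ x, HasDerivAt f (f' x) x) → (∀ x, HasDerivAt f' (-(P x * f x)) x) →
      0 < f s → (∀ x ∈ Icc α β, |f x| ≤ |f s|) → f β = 0 → 1 ≤ K * (β - α) := by
    intro f f' hf hf' hfs hfm hfβ
    have hfc : Continuous f := continuous_iff_continuousAt.2 fun x => (hf x).continuousAt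
    -- first zero after s
    have hcomp : IsCompact (Icc s β ∩ f ⁻¹' {0}) :=
      isCompact_Icc.inter_right (isClosed_singleton.preimage hfc)
    obtain ⟨τ, hτ, hleast⟩ := hcomp.exists_isLeast ⟨β, ⟨hsb.le, le_rfl⟩, hfβ⟩
    have hτ1 : s ≤ τ := hτ.1.1
    have hτ2 : τ ≤ β := hτ.1.2
    have hτ0 : f τ = 0 := hτ.2
    have hnn : ∀ x ∈ Icc s τ, 0 ≤ f x := by
      intro x hx
      by_contra hcon
      push Not at hcon
      obtain ⟨r, hr, hr0⟩ := intermediate_value_Icc' hx.1 hfc.continuousOn
        (show (0 : ℝ) ∈ Icc (f x) (f s) from ⟨hcon.le, hfs.le⟩)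
      have h1 : τ ≤ r := hleast ⟨⟨hr.1, hr.2.trans (hx.2.trans hτ2)⟩, hr0⟩
      have h2 : r = x := le_antisymm hr.2 (hx.2.trans h1)
      rw [h2] at hr0
      linarith
    have hder : f' s = 0 := by
      have hloc : IsLocalMax f s := by
        filter_upwards [Icc_mem_nhds hsa hsb] with x hx
        have h1 := hfm x hx
        rw [abs_of_pos hfs] at h1
        exact (le_abs_self _).trans h1
      exact hloc.hasDerivAt_eq_zero (hf s)
    have h1 := drop hK hf hf' hP hτ1 hder hnn (fun x hx => by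
      have h1 := hfm x ⟨hsa.le.trans hx.1, hx.2.trans hτ2⟩
      rw [abs_of_pos hfs] at h1
      exact (le_abs_self _).trans h1) hfs hτ0
    have h2 : K * (τ - s) ≤ K * (β - α) := mul_le_mul_of_nonneg_left (by linarith) hK.le
    linarith
  rcases lt_or_gt_of_ne (abs_pos.1 hpos) with h | h
  · apply key (fun x => -v x) (fun x => -v' x) (fun x => (hv x).neg)
      (fun x => by
        have h5 := (hv' x).fun_neg
        have h6 : -(-(P x * v x)) = -(P x * -v x) := by ring
        rw [h6] at h5
        exact h5) (by simpa using h)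
      (fun x hx => by simpa using hmax hx) (by simp [hβ])
  · exact key v v' hv hv' h (fun x hx => hmax hx) hβ

end Pool.Agent.Q167.LV
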