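import Mathlib
import Pool.Agent.Q167.LV.Two
set_option autoImplicit false

/-! # Sturm–Hurwitz for finite sums of solutions of `u'' + (p + κ) u = 0` -/

namespace Pool.Agent.Q167.LV

open Set Filter Topology

lemma per_bdd {L : ℝ} (hL : 0 < L) {p : ℝ → ℝ} (hp : Continuous p) (hpp : Function.Periodic p L) :
    ∃ C : ℝ, ∀ x, |p x| ≤ C := by
  obtain ⟨C, hC⟩ := isCompact_Icc.exists_bound_of_continuousOn (s := Icc (0 : ℝ) L) hp.continuousOn
  refine ⟨C, fun x => ?_⟩
  obtain ⟨y, hy, hxy⟩ := hpp.exists_mem_Ico₀ hL x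
  rw [hxy]
  exact hC y ⟨hy.1, hy.2.le⟩

lemma sturm_core {L K : ℝ} (hL : 0 < L) (hK : 0 < K) {p : ℝ → ℝ} (hp : Continuous p)
    (hpp : Function.Periodic p L) (F : Finset ℝ) (hF : F.Nonempty) (U U' : ℝ → ℝ → ℝ)
    (hU : ∀ c x, HasDerivAt (U c) (U' c x) x)
    (hU' : ∀ c x, HasDerivAt (U' c) (-((p x + c) * U c x)) x)
    (hper : ∀ c, Function.Periodic (U c) L) (hne : ∀ c ∈ F, ∃ x, U c x ≠ 0)
    (hb : ∀ c ∈ F, ∀ x, p x + c ≤ K ^ 2) {n : ℕ} (hn : 0 < n)
    (hz : ZZ L (fun x => ∑ c ∈ F, U c x) n) : (n : ℝ) ≤ L * K := by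
  classical
  obtain ⟨C, hC⟩ := per_bdd hL hp hpp
  set c₀ := F.max' hF with hc₀
  have hc₀F : c₀ ∈ F := F.max'_mem hF
  have hcle : ∀ c ∈ F, c ≤ c₀ := fun c hc => F.le_max' c hc
  set M : ℝ := C + 1 + ∑ c ∈ F, |c| with hM
  have hC0 : 0 ≤ C := le_trans (abs_nonneg _) (hC 0)
  have hsum : 0 ≤ ∑ c ∈ F, |c| := Finset.sum_nonneg fun _ _ => abs_nonneg _
  have hQ : ∀ x, 0 < M - p x := by
    intro x
    have := (abs_le.1 (hC x)).2
    rw [hM]; linarith
  have hcM : ∀ c ∈ F, 0 < c + M := by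
    intro c hc
    have h1 : |c| ≤ ∑ c ∈ F, |c| := Finset.single_le_sum (f := fun c : ℝ => |c|) (fun _ _ => abs_nonneg _) hc
    have h2 := neg_abs_le c
    rw [hM]; linarith
  have h0M := hcM c₀ hc₀F
  set r : ℝ → ℝ := fun c => (c + M) / (c₀ + M) with hr
  have hr0 : ∀ c ∈ F, 0 ≤ r c := fun c hc => (div_pos (hcM c hc) h0M).le
  have hr1 : ∀ c ∈ F, c ≠ c₀ → r c < 1 := by
    intro c hc hne
    rw [hr]
    simp only
    rw [div_lt_one h0M]
    have := lt_of_le_of_ne (hcle c hc) hne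
    linarith
  have hrc : r c₀ = 1 := div_self h0M.ne'
  set w : ℕ → ℝ → ℝ := fun m x => ∑ c ∈ F, r c ^ m * U c x with hw
  set w' : ℕ → ℝ → ℝ := fun m x => ∑ c ∈ F, r c ^ m * U' c x with hw'
  have hwd : ∀ m x, HasDerivAt (w m) (w' m x) x := by
    intro m x
    apply HasDerivAt.fun_sum
    intro c _
    exact (hU c x).const_mul _
  have hwd' : ∀ m x, HasDerivAt (w' m) (∑ c ∈ F, r c ^ m * (-((p x + c) * U c x))) x := by
    intro m x
    apply HasDerivAt.fun_sum
    intro c _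
    exact (hU' c x).const_mul _
  have hwc : ∀ m, Continuous (w m) := fun m => continuous_iff_continuousAt.2 fun x => (hwd m x).continuousAt
  have hwp : ∀ m, Function.Periodic (w m) L := by
    intro m x
    simp only [hw]
    exact Finset.sum_congr rfl fun c _ => by rw [hper c x]
  have hrec : ∀ m x, (c₀ + M) * w (m + 1) x =
      -(∑ c ∈ F, r c ^ m * (-((p x + c) * U c x))) + (M - p x) * w m x := by
    intro m x
    simp only [hw]
    rw [Finset.mul_sum, Finset.mul_sum, ← Finset.sum_neg_distrib, ← Finset.sum_add_distrib]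
    apply Finset.sum_congr rfl
    intro c _
    have h1 : r c * (c₀ + M) = c + M := by
      rw [hr]; exact div_mul_cancel₀ _ h0M.ne'
    calc (c₀ + M) * (r c ^ (m + 1) * U c x) = r c ^ m * (r c * (c₀ + M)) * U c x := by ring
      _ = _ := by rw [h1]; ring
  have hlimG : ∀ (V : ℝ → ℝ → ℝ), (∀ c, Continuous (V c)) → ∀ (φ : ℕ → ℕ) (x : ℕ → ℝ) (a : ℝ),
      Tendsto φ atTop atTop → Tendsto x atTop (𝓝 a) →
      Tendsto (fun m => ∑ c ∈ F, r c ^ (φ m) * V c (x m)) atTop (𝓝 (V c₀ a)) := by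
    intro V hV φ x a hφ hx
    have h1 : V c₀ a = ∑ c ∈ F, (if c = c₀ then 1 else 0) * V c a := by
      simp [hc₀F]
    rw [h1]
    apply tendsto_finsetSum
    intro c hc
    apply Tendsto.mul _ (((hV c).tendsto a).comp hx)
    split_ifs with h
    · rw [h, hrc]
      simp
    · exact (tendsto_pow_atTop_nhds_zero_of_lt_one (hr0 c hc) (hr1 c hc h)).comp hφ
  have hUc : ∀ c, Continuous (U c) := fun c => continuous_iff_continuousAt.2 fun x => (hU c x).continuousAt
  have hUc' : ∀ c, Continuous (U' c) := fun c => continuous_iff_continuousAt.2 fun x => (hU' c x).continuousAt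
  have hsimple : ∀ x, U c₀ x = 0 → U' c₀ x ≠ 0 := by
    intro x h1 h2
    obtain ⟨y, hy⟩ := hne c₀ hc₀F
    apply hy
    exact unique_zero (C := C + |c₀|) (hU c₀) (hU' c₀)
      (fun x => (abs_add_le _ _).trans (by have := hC x; linarith)) h1 h2 y
  -- no interval of zeros
  have hprop : ∀ m a b, (∀ x ∈ Ioo a b, w m x = 0) → ∀ x ∈ Ioo a b, w (m + 1) x = 0 := by
    intro m a b h x hx
    have h1 : ∀ y ∈ Ioo a b, w' m y = 0 := by
      intro y hy
      have e1 : w m =ᶠ[𝓝 y] fun _ => 0 := by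
        filter_upwards [isOpen_Ioo.mem_nhds hy] with z hz
        exact h z hz
      exact (hwd m y).unique ((hasDerivAt_const y (0 : ℝ)).congr_of_eventuallyEq e1)
    have h2 : ∑ c ∈ F, r c ^ m * (-((p x + c) * U c x)) = 0 := by
      have e1 : w' m =ᶠ[𝓝 x] fun _ => 0 := by
        filter_upwards [isOpen_Ioo.mem_nhds hx] with z hz
        exact h1 z hz
      exact (hwd' m x).unique ((hasDerivAt_const x (0 : ℝ)).congr_of_eventuallyEq e1)
    have h3 := hrec m x
    rw [h2, h x hx] at h3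
    simp only [neg_zero, mul_zero, add_zero] at h3
    rcases mul_eq_zero.1 h3 with h4 | h4
    · exact absurd h4 h0M.ne'
    · exact h4
  have hnoint : ∀ m a b, a < b → ∃ x ∈ Ioo a b, w m x ≠ 0 := by
    intro m a b hab
    by_contra hcon
    push Not at hcon
    have hall : ∀ k, ∀ x ∈ Ioo a b, w (m + k) x = 0 := by
      intro k
      induction k with
      | zero => exact hcon
      | succ k ih => exact hprop (m + k) a b ih
    have hU0 : ∀ x ∈ Ioo a b, U c₀ x = 0 := by
      intro x hx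
      have h1 := hlimG U hUc (fun k => m + k) (fun _ => x) x
        (tendsto_atTop_mono (fun k => Nat.le_add_left k m) tendsto_id) tendsto_const_nhds
      have h2 : (fun k => ∑ c ∈ F, r c ^ (m + k) * U c x) = fun _ => 0 := by
        ext k; exact hall k x hx
      rw [h2] at h1
      exact tendsto_nhds_unique h1 tendsto_const_nhds |>.symm ▸ rfl
    have hmid : (a + b) / 2 ∈ Ioo a b := ⟨by linarith, by linarith⟩
    have e1 : U c₀ =ᶠ[𝓝 ((a + b) / 2)] fun _ => 0 := by
      filter_upwards [isOpen_Ioo.mem_nhds hmid] with z hz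
      exact hU0 z hz
    exact hsimple _ (hU0 _ hmid) ((hU c₀ _).unique ((hasDerivAt_const _ (0 : ℝ)).congr_of_eventuallyEq e1))
  have hZ : ∀ m, ZZ L (w m) n := by
    intro m
    induction m with
    | zero =>
      have : w 0 = fun x => ∑ c ∈ F, U c x := by
        ext x; simp [hw]
      rw [this]; exact hz
    | succ m ih =>
      have h1 := step hn (hwd m) (hwd' m) (v := fun x => (c₀ + M) * w (m + 1) x)
        (continuous_const.mul (hwc _)) (fun x => hrec m x) hQ (hwp m)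
        (fun x => by simp only [hwp (m + 1) x]) (hnoint m) ih
      obtain ⟨t, h2, h3, h4⟩ := h1
      refine ⟨t, h2, h3, fun i => ?_⟩
      rcases mul_eq_zero.1 (h4 i) with h5 | h5
      · exact absurd h5 h0M.ne'
      · exact h5
  obtain ⟨t, htn, hlt, ht0⟩ := limit hL hn hwd (hlimG U hUc) (hlimG U' hUc') hwp hZ hsimple
  have hind : ∀ i ≤ n, (i : ℝ) ≤ K * (t i - t 0) := by
    intro i
    induction i with
    | zero => intro _; simp
    | succ i ih =>
      intro hi
      have h1 := ih (Nat.le_of_succ_le hi)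
      have h2 := gap hK (hU c₀) (hU' c₀) (fun x => hb c₀ hc₀F x) hsimple (hlt i hi)
        (ht0 i (Nat.le_of_succ_le hi)) (ht0 (i + 1) hi)
      push_cast
      nlinarith
  have := hind n le_rfl
  rw [htn] at this
  nlinarith

/-- **Sturm–Hurwitz**: a finite sum of solutions of `u_i'' + (p + κ_i) u_i = 0` with
`p + κ_i ≤ K²` has at most `L K` zeros per period, unless it vanishes identically. -/
theorem sturm {L K : ℝ} (hL : 0 < L) (hK : 0 < K) {ι : Type} [Fintype ι] {p : ℝ → ℝ}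
    (hp : Continuous p) (hpp : Function.Periodic p L) (κ : ι → ℝ) (u u' : ι → ℝ → ℝ)
    (hu : ∀ i x, HasDerivAt (u i) (u' i x) x)
    (hu' : ∀ i x, HasDerivAt (u' i) (-((p x + κ i) * u i x)) x)
    (hup : ∀ i, Function.Periodic (u i) L)
    (hb : ∀ i, (∃ x, u i x ≠ 0) → ∀ x, p x + κ i ≤ K ^ 2)
    (hne : ∃ x, ∑ i, u i x ≠ 0) {n : ℕ} (hn : 0 < n) (hz : ZZ L (fun x => ∑ i, u i x) n) :
    (n : ℝ) ≤ L * K := by
  classical
  set U : ℝ → ℝ → ℝ := fun c x => ∑ i with κ i = c, u i x with hU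
  set U' : ℝ → ℝ → ℝ := fun c x => ∑ i with κ i = c, u' i x with hU'
  set G : Finset ℝ := Finset.univ.image κ with hG
  have htot : ∀ x, ∑ c ∈ G, U c x = ∑ i, u i x := by
    intro x
    exact Finset.sum_fiberwise_of_maps_to (s := Finset.univ) (t := G) (g := κ) (fun i _ => Finset.mem_image_of_mem _ (Finset.mem_univ i)) (fun i => u i x)
  set F : Finset ℝ := G.filter fun c => ∃ x, U c x ≠ 0 with hF
  have htotF : ∀ x, ∑ c ∈ F, U c x = ∑ i, u i x := by
    intro x
    rw [← htot x, hF]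
    apply Finset.sum_filter_of_ne
    intro c _ hc
    exact ⟨x, hc⟩
  have hFn : F.Nonempty := by
    obtain ⟨x, hx⟩ := hne
    rw [← htotF x] at hx
    exact Finset.nonempty_of_sum_ne_zero hx
  have hz' : ZZ L (fun x => ∑ c ∈ F, U c x) n := by
    have : (fun x => ∑ c ∈ F, U c x) = fun x => ∑ i, u i x := funext htotF
    rw [this]; exact hz
  refine sturm_core hL hK hp hpp F hFn U U' ?_ ?_ ?_ ?_ ?_ hn hz'
  · intro c x
    exact HasDerivAt.fun_sum fun i _ => hu i x
  · intro c x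
    have h1 : HasDerivAt (U' c) (∑ i with κ i = c, -((p x + κ i) * u i x)) x :=
      HasDerivAt.fun_sum fun i _ => hu' i x
    refine h1.congr_deriv ?_
    rw [hU]
    simp only
    rw [Finset.mul_sum, ← Finset.sum_neg_distrib]
    apply Finset.sum_congr rfl
    intro i hi
    rw [(Finset.mem_filter.1 hi).2]
  · intro c x
    simp only [hU]
    exact Finset.sum_congr rfl fun i _ => hup i x
  · intro c hc
    exact (Finset.mem_filter.1 hc).2
  · intro c hc x
    obtain ⟨y, hy⟩ := (Finset.mem_filter.1 hc).2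
    obtain ⟨i, hi, hiy⟩ := Finset.exists_ne_zero_of_sum_ne_zero hy
    have := hb i ⟨y, hiy⟩ x
    rw [(Finset.mem_filter.1 hi).2] at this
    exact this

end Pool.Agent.Q167.LV
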