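import Mathlib
import Pool.Agent.Q167.LV.Three
set_option autoImplicit false

/-! # Partial derivatives of smooth functions of two variables -/

namespace Pool.Agent.Q167.LV

open Set Filter Topology
open scoped ContDiff

lemma two_le_inf : (2 : WithTop ℕ∞) ≤ ∞ := by
  have : ((2 : ℕ∞) : WithTop ℕ∞) ≤ ((⊤ : ℕ∞) : WithTop ℕ∞) := WithTop.coe_le_coe.2 le_top
  exact this

/-- `∂f/∂x` -/
noncomputable def px (f : ℝ × ℝ → ℝ) (z : ℝ × ℝ) : ℝ := fderiv ℝ f z (1, 0)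
/-- `∂f/∂y` -/
noncomputable def py (f : ℝ × ℝ → ℝ) (z : ℝ × ℝ) : ℝ := fderiv ℝ f z (0, 1)

lemma px_smooth {f : ℝ × ℝ → ℝ} (hf : ContDiff ℝ ∞ f) : ContDiff ℝ ∞ (px f) :=
  (hf.fderiv_right (m := ∞) le_rfl).clm_apply contDiff_const

lemma py_smooth {f : ℝ × ℝ → ℝ} (hf : ContDiff ℝ ∞ f) : ContDiff ℝ ∞ (py f) :=
  (hf.fderiv_right (m := ∞) le_rfl).clm_apply contDiff_const

lemma hx {f : ℝ × ℝ → ℝ} (hf : ContDiff ℝ ∞ f) (x y : ℝ) :
    HasDerivAt (fun s => f (s, y)) (px f (x, y)) x := by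
  have h1 : HasFDerivAt f (fderiv ℝ f (x, y)) (x, y) :=
    (hf.differentiable (by simp) (x, y)).hasFDerivAt
  have h2 : HasDerivAt (fun s : ℝ => (s, y)) ((1, 0) : ℝ × ℝ) x :=
    (hasDerivAt_id x).prodMk (hasDerivAt_const x y)
  exact h1.comp_hasDerivAt x h2

lemma hy {f : ℝ × ℝ → ℝ} (hf : ContDiff ℝ ∞ f) (x y : ℝ) :
    HasDerivAt (fun t => f (x, t)) (py f (x, y)) y := by
  have h1 : HasFDerivAt f (fderiv ℝ f (x, y)) (x, y) :=
    (hf.differentiable (by simp) (x, y)).hasFDerivAt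
  have h2 : HasDerivAt (fun t : ℝ => (x, t)) ((0, 1) : ℝ × ℝ) y :=
    (hasDerivAt_const y x).prodMk (hasDerivAt_id y)
  exact h1.comp_hasDerivAt y h2

lemma comm {f : ℝ × ℝ → ℝ} (hf : ContDiff ℝ ∞ f) : px (py f) = py (px f) := by
  ext z
  have hd : ContDiff ℝ ∞ (fderiv ℝ f) := hf.fderiv_right (m := ∞) le_rfl
  have hF : HasFDerivAt (fderiv ℝ f) (fderiv ℝ (fderiv ℝ f) z) z :=
    (hd.differentiable (by simp) z).hasFDerivAt
  have e1 : fderiv ℝ (py f) z = (ContinuousLinearMap.apply ℝ ℝ ((0, 1) : ℝ × ℝ)).comp (fderiv ℝ (fderiv ℝ f) z) :=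
    ((ContinuousLinearMap.apply ℝ ℝ ((0, 1) : ℝ × ℝ)).hasFDerivAt.comp z hF).fderiv
  have e2 : fderiv ℝ (px f) z = (ContinuousLinearMap.apply ℝ ℝ ((1, 0) : ℝ × ℝ)).comp (fderiv ℝ (fderiv ℝ f) z) :=
    ((ContinuousLinearMap.apply ℝ ℝ ((1, 0) : ℝ × ℝ)).hasFDerivAt.comp z hF).fderiv
  have hs : IsSymmSndFDerivAt ℝ f z := hf.contDiffAt.isSymmSndFDerivAt (by simp only [minSmoothness_of_isRCLikeNormedField]; exact two_le_inf)
  show fderiv ℝ (py f) z (1, 0) = fderiv ℝ (px f) z (0, 1)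
  rw [e1, e2]
  exact hs _ _

lemma px_of {f g : ℝ × ℝ → ℝ} (hf : ContDiff ℝ ∞ f) (h : ∀ x y, HasDerivAt (fun s => f (s, y)) (g (x, y)) x) :
    px f = g := by
  ext ⟨x, y⟩
  exact (hx hf x y).unique (h x y)

lemma py_of {f g : ℝ × ℝ → ℝ} (hf : ContDiff ℝ ∞ f) (h : ∀ x y, HasDerivAt (fun t => f (x, t)) (g (x, y)) y) :
    py f = g := by
  ext ⟨x, y⟩
  exact (hy hf x y).unique (h x y)

lemma px_add {f g : ℝ × ℝ → ℝ} (hf : ContDiff ℝ ∞ f) (hg : ContDiff ℝ ∞ g) :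
    px (f + g) = px f + px g :=
  px_of (hf.add hg) fun x y => (hx hf x y).add (hx hg x y)

lemma py_add {f g : ℝ × ℝ → ℝ} (hf : ContDiff ℝ ∞ f) (hg : ContDiff ℝ ∞ g) :
    py (f + g) = py f + py g :=
  py_of (hf.add hg) fun x y => (hy hf x y).add (hy hg x y)

lemma px_smul {f : ℝ × ℝ → ℝ} (c : ℝ) (hf : ContDiff ℝ ∞ f) : px (c • f) = c • px f :=
  px_of (contDiff_const.smul hf) fun x y => (hx hf x y).const_mul c

lemma py_smul {f : ℝ × ℝ → ℝ} (c : ℝ) (hf : ContDiff ℝ ∞ f) : py (c • f) = c • py f :=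
  py_of (contDiff_const.smul hf) fun x y => (hy hf x y).const_mul c

/-- multiplication by a function of `x` -/
def mx (a : ℝ → ℝ) (f : ℝ × ℝ → ℝ) (z : ℝ × ℝ) : ℝ := a z.1 * f z
/-- multiplication by a function of `y` -/
def my (b : ℝ → ℝ) (f : ℝ × ℝ → ℝ) (z : ℝ × ℝ) : ℝ := b z.2 * f z

lemma mx_smooth {a : ℝ → ℝ} {f : ℝ × ℝ → ℝ} (ha : ContDiff ℝ ∞ a) (hf : ContDiff ℝ ∞ f) :
    ContDiff ℝ ∞ (mx a f) := (ha.comp contDiff_fst).mul hf

lemma my_smooth {b : ℝ → ℝ} {f : ℝ × ℝ → ℝ} (hb : ContDiff ℝ ∞ b) (hf : ContDiff ℝ ∞ f) :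
    ContDiff ℝ ∞ (my b f) := (hb.comp contDiff_snd).mul hf

lemma px_my {b : ℝ → ℝ} {f : ℝ × ℝ → ℝ} (hb : ContDiff ℝ ∞ b) (hf : ContDiff ℝ ∞ f) :
    px (my b f) = my b (px f) :=
  px_of (my_smooth hb hf) fun x y => (hx hf x y).const_mul (b y)

lemma py_mx {a : ℝ → ℝ} {f : ℝ × ℝ → ℝ} (ha : ContDiff ℝ ∞ a) (hf : ContDiff ℝ ∞ f) :
    py (mx a f) = mx a (py f) :=
  py_of (mx_smooth ha hf) fun x y => (hy hf x y).const_mul (a x)

lemma px_mx {a : ℝ → ℝ} {f : ℝ × ℝ → ℝ} (ha : ContDiff ℝ ∞ a) (hf : ContDiff ℝ ∞ f) :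
    px (mx a f) = mx (deriv a) f + mx a (px f) :=
  px_of (mx_smooth ha hf) fun x y =>
    ((ha.differentiable (by simp) x).hasDerivAt.fun_mul (hx hf x y))

lemma py_my {b : ℝ → ℝ} {f : ℝ × ℝ → ℝ} (hb : ContDiff ℝ ∞ b) (hf : ContDiff ℝ ∞ f) :
    py (my b f) = my (deriv b) f + my b (py f) :=
  py_of (my_smooth hb hf) fun x y =>
    ((hb.differentiable (by simp) y).hasDerivAt.fun_mul (hy hf x y))

/-- doubly periodic -/
def Per (L₁ L₂ : ℝ) (f : ℝ × ℝ → ℝ) : Prop :=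
  (∀ x y, f (x + L₁, y) = f (x, y)) ∧ ∀ x y, f (x, y + L₂) = f (x, y)

lemma Per.px {L₁ L₂ : ℝ} {f : ℝ × ℝ → ℝ} (hf : ContDiff ℝ ∞ f) (h : Per L₁ L₂ f) : Per L₁ L₂ (px f) := by
  constructor
  · intro x y
    have h1 := (hx hf (x + L₁) y).comp_add_const x L₁
    have h2 : (fun s => f (s + L₁, y)) = fun s => f (s, y) := funext fun s => h.1 s y
    rw [h2] at h1
    exact h1.unique (hx hf x y)
  · intro x y
    have h1 := hx hf x (y + L₂)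
    have h2 : (fun s => f (s, y + L₂)) = fun s => f (s, y) := funext fun s => h.2 s y
    rw [h2] at h1
    exact h1.unique (hx hf x y)

lemma Per.py {L₁ L₂ : ℝ} {f : ℝ × ℝ → ℝ} (hf : ContDiff ℝ ∞ f) (h : Per L₁ L₂ f) : Per L₁ L₂ (py f) := by
  constructor
  · intro x y
    have h1 := hy hf (x + L₁) y
    have h2 : (fun s => f (x + L₁, s)) = fun s => f (x, s) := funext fun s => h.1 x s
    rw [h2] at h1
    exact h1.unique (hy hf x y)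
  · intro x y
    have h1 := (hy hf x (y + L₂)).comp_add_const y L₂
    have h2 : (fun s => f (x, s + L₂)) = fun s => f (x, s) := funext fun s => h.2 x s
    rw [h2] at h1
    exact h1.unique (hy hf x y)

/-- a continuous doubly periodic function has a maximum -/
lemma Per.exists_max {L₁ L₂ : ℝ} (h1 : 0 < L₁) (h2 : 0 < L₂) {f : ℝ × ℝ → ℝ} (hf : Continuous f)
    (h : Per L₁ L₂ f) : ∃ z, ∀ w, f w ≤ f z := by
  obtain ⟨z, -, hz⟩ := (isCompact_Icc.prod isCompact_Icc).exists_isMaxOn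
    (s := Icc (0 : ℝ) L₁ ×ˢ Icc (0 : ℝ) L₂) ⟨(0, 0), ⟨⟨le_rfl, h1.le⟩, ⟨le_rfl, h2.le⟩⟩⟩ hf.continuousOn
  refine ⟨z, fun w => ?_⟩
  have hpx : Function.Periodic (fun s => f (s, w.2)) L₁ := fun s => h.1 s w.2
  obtain ⟨x, hx, hx'⟩ := hpx.exists_mem_Ico₀ h1 w.1
  have hpy : Function.Periodic (fun t => f (x, t)) L₂ := fun t => h.2 x t
  obtain ⟨y, hy, hy'⟩ := hpy.exists_mem_Ico₀ h2 w.2
  have e : f w = f (x, y) := by
    have a1 : f w = f (x, w.2) := hx'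
    have a2 : f (x, w.2) = f (x, y) := hy'
    rw [a1, a2]
  rw [e]
  exact hz ⟨⟨hx.1, hx.2.le⟩, ⟨hy.1, hy.2.le⟩⟩

/-- second derivative test for a sum of squares -/
lemma three_sq {F G H F' G' H' : ℝ → ℝ} {F'' G'' H'' s μ : ℝ} (hF : ∀ x, HasDerivAt F (F' x) x)
    (hG : ∀ x, HasDerivAt G (G' x) x) (hH : ∀ x, HasDerivAt H (H' x) x)
    (hF' : HasDerivAt F' F'' s) (hG' : HasDerivAt G' G'' s) (hH' : HasDerivAt H' H'' s)
    (hmax : IsLocalMax (fun x => F x ^ 2 + G x ^ 2 + μ * H x ^ 2) s) :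
    F' s ^ 2 + F s * F'' + (G' s ^ 2 + G s * G'') + μ * (H' s ^ 2 + H s * H'') ≤ 0 := by
  have sq' : ∀ {F F' : ℝ → ℝ}, (∀ x, HasDerivAt F (F' x) x) → ∀ x,
      HasDerivAt (fun x => F x ^ 2) (2 * (F x * F' x)) x := by
    intro F F' hF x
    refine ((hF x).fun_pow 2).congr_deriv ?_
    push_cast
    ring
  have h1 : ∀ x, HasDerivAt (fun x => F x ^ 2 + G x ^ 2 + μ * H x ^ 2)
      (2 * (F x * F' x) + 2 * (G x * G' x) + μ * (2 * (H x * H' x))) x := fun x =>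
    ((sq' hF x).fun_add (sq' hG x)).fun_add ((sq' hH x).const_mul μ)
  have h2 : HasDerivAt (fun x => 2 * (F x * F' x) + 2 * (G x * G' x) + μ * (2 * (H x * H' x)))
      (2 * (F' s * F' s + F s * F'') + 2 * (G' s * G' s + G s * G'') +
        μ * (2 * (H' s * H' s + H s * H''))) s :=
    ((((hF s).fun_mul hF').const_mul 2).fun_add (((hG s).fun_mul hG').const_mul 2)).fun_add
      ((((hH s).fun_mul hH').const_mul 2).const_mul μ)
  have := sd_max h1 h2 hmax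
  nlinarith

end Pool.Agent.Q167.LV
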