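import Mathlib
set_option autoImplicit false

/-! # The spectral theorem for a symmetric operator and an inner product given by a function -/

namespace Pool.Agent.Q167.LV

lemma spectral {V : Type} [AddCommGroup V] [Module ℝ V] [FiniteDimensional ℝ V] (B : V → V → ℝ)
    (hadd : ∀ x y z, B (x + y) z = B x z + B y z) (hsmul : ∀ (c : ℝ) x y, B (c • x) y = c * B x y)
    (hsymm : ∀ x y, B x y = B y x) (hpos : ∀ x, 0 ≤ B x x) (hdef : ∀ x, B x x = 0 → x = 0)
    (T : V →ₗ[ℝ] V) (hT : ∀ x y, B (T x) y = B x (T y)) (x : V) :
    ∃ (n : ℕ) (v : Fin n → V) (κ : Fin n → ℝ), x = ∑ i, v i ∧ ∀ i, T (v i) = κ i • v i := by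
  let core : InnerProductSpace.Core ℝ V :=
    { inner := fun x y => B y x
      conj_inner_symm := fun x y => by simp [hsymm x y]
      re_inner_nonneg := fun x => by simpa using hpos x
      add_left := fun x y z => by
        show B z (x + y) = B z x + B z y
        rw [hsymm z, hadd, hsymm x, hsymm y]
      smul_left := fun x y r => by
        show B y (r • x) = _
        rw [hsymm y, hsmul, hsymm x]; simp
      definite := hdef }
  letI : NormedAddCommGroup V := @InnerProductSpace.Core.toNormedAddCommGroup ℝ V _ _ _ core
  letI : InnerProductSpace ℝ V := InnerProductSpace.ofCore core.toCore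
  have hsym : T.IsSymmetric := by
    intro x y
    show B y (T x) = B (T y) x
    rw [hT]
  let b := hsym.eigenvectorBasis (rfl : Module.finrank ℝ V = Module.finrank ℝ V)
  refine ⟨Module.finrank ℝ V, fun i => (b.repr x i) • b i, fun i => hsym.eigenvalues rfl i, ?_, ?_⟩
  · exact (b.sum_repr x).symm
  · intro i
    rw [map_smul]
    have := hsym.apply_eigenvectorBasis (rfl : Module.finrank ℝ V = Module.finrank ℝ V) i
    show (b.repr x i) • T (b i) = _
    rw [show T (b i) = ((hsym.eigenvalues rfl i : ℝ)) • b i from this]
    rw [smul_comm]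

end Pool.Agent.Q167.LV
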