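import Mathlib
import Pool.Agent.Q167.LV.Four
import Pool.Agent.Q167.LV.Spec
set_option autoImplicit false

/-! # The solutions of `f_xx + f_yy + (α(x) + β(y)) f = 0`: gradient bound and finite dimension -/

namespace Pool.Agent.Q167.LV

open Set Filter Topology
open scoped ContDiff

structure Sol (L₁ L₂ : ℝ) (α β : ℝ → ℝ) (f : ℝ × ℝ → ℝ) : Prop where
  smooth : ContDiff ℝ ∞ f
  per : Per L₁ L₂ f
  pde : ∀ z, px (px f) z + py (py f) z = -((α z.1 + β z.2) * f z)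

lemma per_deriv {L : ℝ} {a : ℝ → ℝ} (ha : ContDiff ℝ ∞ a) (h : Function.Periodic a L) :
    Function.Periodic (deriv a) L := by
  intro x
  have h0 : ∀ y, HasDerivAt a (deriv a y) y := fun y => (ha.differentiable (by simp) y).hasDerivAt
  have h1 := (h0 (x + L)).comp_add_const x L
  have h2 : (fun s => a (s + L)) = a := funext fun s => h s
  rw [h2] at h1
  exact h1.unique (h0 x)

lemma smooth_deriv {a : ℝ → ℝ} (ha : ContDiff ℝ ∞ a) : ContDiff ℝ ∞ (deriv a) :=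
  ((contDiff_infty_iff_deriv (𝕜 := ℝ)).1 ha).2

lemma bernstein {L₁ L₂ : ℝ} (h₁ : 0 < L₁) (h₂ : 0 < L₂) {α β : ℝ → ℝ} (hα : ContDiff ℝ ∞ α)
    (hβ : ContDiff ℝ ∞ β) (hαp : Function.Periodic α L₁) (hβp : Function.Periodic β L₂) :
    ∃ C : ℝ, 0 < C ∧ ∀ f, Sol L₁ L₂ α β f → ∀ S, (∀ z, |f z| ≤ S) →
      ∀ z, |px f z| ≤ C * S ∧ |py f z| ≤ C * S := by
  obtain ⟨R₁, hR₁⟩ := per_bdd h₁ hα.continuous hαp
  obtain ⟨R₂, hR₂⟩ := per_bdd h₂ hβ.continuous hβp
  obtain ⟨D₁, hD₁⟩ := per_bdd h₁ (smooth_deriv hα).continuous (per_deriv hα hαp)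
  obtain ⟨D₂, hD₂⟩ := per_bdd h₂ (smooth_deriv hβ).continuous (per_deriv hβ hβp)
  have hR₁0 : 0 ≤ R₁ := (abs_nonneg _).trans (hR₁ 0)
  have hR₂0 : 0 ≤ R₂ := (abs_nonneg _).trans (hR₂ 0)
  have hD₁0 : 0 ≤ D₁ := (abs_nonneg _).trans (hD₁ 0)
  have hD₂0 : 0 ≤ D₂ := (abs_nonneg _).trans (hD₂ 0)
  set R := R₁ + R₂ with hR
  set μ := R + 3 / 2 with hμ
  set C₀ := (D₁ ^ 2 + D₂ ^ 2 + μ * R) + μ with hC₀
  have hR0 : 0 ≤ R := by positivity
  have hμ0 : 0 ≤ μ := by positivity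
  have hC₀0 : 0 ≤ C₀ := by positivity
  refine ⟨C₀ + 1, by positivity, ?_⟩
  intro f hf S hS
  have hS0 : 0 ≤ S := (abs_nonneg _).trans (hS (0, 0))
  have hs := hf.smooth
  set w : ℝ × ℝ → ℝ := fun z => px f z ^ 2 + py f z ^ 2 + μ * f z ^ 2 with hw
  have hwc : Continuous w :=
    ((((px_smooth hs).continuous).pow 2).add (((py_smooth hs).continuous).pow 2)).add
      (continuous_const.mul (hs.continuous.pow 2))
  have hpx := hf.per.px hs
  have hpy := hf.per.py hs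
  have hwp : Per L₁ L₂ w := by
    constructor
    · intro x y
      simp only [hw, hpx.1 x y, hpy.1 x y, hf.per.1 x y]
    · intro x y
      simp only [hw, hpx.2 x y, hpy.2 x y, hf.per.2 x y]
  obtain ⟨⟨x₀, y₀⟩, hmax⟩ := hwp.exists_max h₁ h₂ hwc
  have E1 := three_sq (F := fun s => px f (s, y₀)) (G := fun s => py f (s, y₀)) (H := fun s => f (s, y₀))
    (F' := fun s => px (px f) (s, y₀)) (G' := fun s => px (py f) (s, y₀)) (H' := fun s => px f (s, y₀))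
    (s := x₀) (μ := μ) (fun x => hx (px_smooth hs) x y₀) (fun x => hx (py_smooth hs) x y₀)
    (fun x => hx hs x y₀) (hx (px_smooth (px_smooth hs)) x₀ y₀) (hx (px_smooth (py_smooth hs)) x₀ y₀)
    (hx (px_smooth hs) x₀ y₀) (Eventually.of_forall fun x => hmax (x, y₀))
  have E2 := three_sq (F := fun s => px f (x₀, s)) (G := fun s => py f (x₀, s)) (H := fun s => f (x₀, s))
    (F' := fun s => py (px f) (x₀, s)) (G' := fun s => py (py f) (x₀, s)) (H' := fun s => py f (x₀, s))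
    (s := y₀) (μ := μ) (fun y => hy (px_smooth hs) x₀ y) (fun y => hy (py_smooth hs) x₀ y)
    (fun y => hy hs x₀ y) (hy (py_smooth (px_smooth hs)) x₀ y₀) (hy (py_smooth (py_smooth hs)) x₀ y₀)
    (hy (py_smooth hs) x₀ y₀) (Eventually.of_forall fun y => hmax (x₀, y))
  -- the equation, as an identity of functions
  have hpde : px (px f) + py (py f) = (-1 : ℝ) • (mx α f + my β f) := by
    ext z
    have := hf.pde z
    simp only [Pi.add_apply, Pi.smul_apply, mx, my, smul_eq_mul]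
    rw [this]; ring
  have hsm : ContDiff ℝ ∞ (mx α f + my β f) := (mx_smooth hα hs).add (my_smooth hβ hs)
  have hd1 : px (px (px f)) + py (py (px f)) =
      (-1 : ℝ) • (mx (deriv α) f + mx α (px f) + my β (px f)) := by
    have e1 := congrArg px hpde
    rw [px_add (px_smooth (px_smooth hs)) (py_smooth (py_smooth hs)), px_smul _ hsm,
      px_add (mx_smooth hα hs) (my_smooth hβ hs), px_mx hα hs, px_my hβ hs,
      comm (py_smooth hs), comm hs] at e1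
    exact e1
  have hd2 : px (px (py f)) + py (py (py f)) =
      (-1 : ℝ) • (mx α (py f) + (my (deriv β) f + my β (py f))) := by
    have e1 := congrArg py hpde
    rw [py_add (px_smooth (px_smooth hs)) (py_smooth (py_smooth hs)), py_smul _ hsm,
      py_add (mx_smooth hα hs) (my_smooth hβ hs), py_mx hα hs, py_my hβ hs,
      ← comm (px_smooth hs), ← comm hs] at e1
    exact e1
  have e1 := congrFun hd1 (x₀, y₀)
  have e2 := congrFun hd2 (x₀, y₀)
  have e3 := hf.pde (x₀, y₀)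
  simp only [Pi.add_apply, Pi.smul_apply, mx, my, smul_eq_mul] at e1 e2 e3
  set A := px f (x₀, y₀) with hA
  set B := py f (x₀, y₀) with hB
  set φ := f (x₀, y₀) with hφ
  set a' := deriv α x₀ with ha'
  set b' := deriv β y₀ with hb'
  set ρ := α x₀ + β y₀ with hρ
  have hρR : |ρ| ≤ R := (abs_add_le _ _).trans (add_le_add (hR₁ x₀) (hR₂ y₀))
  have ha'R := hD₁ x₀
  have hb'R := hD₂ y₀
  -- sum of E1 and E2
  have hsum : A * (-(a' * φ + ρ * A)) + B * (-(b' * φ + ρ * B)) + μ * (A ^ 2 + B ^ 2) - μ * ρ * φ ^ 2 ≤ 0 := by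
    have f1 : A * (px (px (px f)) (x₀, y₀) + py (py (px f)) (x₀, y₀)) = A * (-(a' * φ + ρ * A)) := by
      rw [e1, hρ]; ring
    have f2 : B * (px (px (py f)) (x₀, y₀) + py (py (py f)) (x₀, y₀)) = B * (-(b' * φ + ρ * B)) := by
      rw [e2, hρ]; ring
    have f3 : μ * (φ * (px (px f) (x₀, y₀) + py (py f) (x₀, y₀))) = -(μ * ρ * φ ^ 2) := by
      rw [e3]; ring
    nlinarith [sq_nonneg (px (px f) (x₀, y₀)), sq_nonneg (px (py f) (x₀, y₀)),
      sq_nonneg (py (px f) (x₀, y₀)), sq_nonneg (py (py f) (x₀, y₀))]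
  have hAB : A ^ 2 + B ^ 2 ≤ (D₁ ^ 2 + D₂ ^ 2 + μ * R) * φ ^ 2 := by
    have g1 : a' * φ * A ≤ (D₁ ^ 2 * φ ^ 2 + A ^ 2) / 2 := by
      have : a' ^ 2 ≤ D₁ ^ 2 := sq_le_sq.2 (by rw [abs_of_nonneg hD₁0]; exact ha'R)
      nlinarith [sq_nonneg (a' * φ - A), mul_le_mul_of_nonneg_right this (sq_nonneg φ)]
    have g2 : b' * φ * B ≤ (D₂ ^ 2 * φ ^ 2 + B ^ 2) / 2 := by
      have : b' ^ 2 ≤ D₂ ^ 2 := sq_le_sq.2 (by rw [abs_of_nonneg hD₂0]; exact hb'R)
      nlinarith [sq_nonneg (b' * φ - B), mul_le_mul_of_nonneg_right this (sq_nonneg φ)]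
    have g3 : ρ * (A ^ 2 + B ^ 2) ≤ R * (A ^ 2 + B ^ 2) :=
      mul_le_mul_of_nonneg_right ((abs_le.1 hρR).2) (by positivity)
    have g4 : μ * ρ * φ ^ 2 ≤ μ * R * φ ^ 2 :=
      mul_le_mul_of_nonneg_right (mul_le_mul_of_nonneg_left ((abs_le.1 hρR).2) hμ0) (sq_nonneg _)
    have g5 : μ * (A ^ 2 + B ^ 2) = R * (A ^ 2 + B ^ 2) + 3 / 2 * (A ^ 2 + B ^ 2) := by rw [hμ]; ring
    nlinarith [sq_nonneg (D₁ * φ), sq_nonneg (D₂ * φ)]
  have hφS : φ ^ 2 ≤ S ^ 2 := sq_le_sq.2 (by rw [abs_of_nonneg hS0]; exact hS _)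
  have hw0 : ∀ z, w z ≤ C₀ * S ^ 2 := by
    intro z
    have h3 : w z ≤ A ^ 2 + B ^ 2 + μ * φ ^ 2 := hmax z
    have h4 : (D₁ ^ 2 + D₂ ^ 2 + μ * R) * φ ^ 2 + μ * φ ^ 2 = C₀ * φ ^ 2 := by rw [hC₀]; ring
    have h5 : C₀ * φ ^ 2 ≤ C₀ * S ^ 2 := mul_le_mul_of_nonneg_left hφS hC₀0
    linarith
  have hCS : C₀ * S ^ 2 ≤ ((C₀ + 1) * S) ^ 2 := by
    have : C₀ * S ^ 2 ≤ (C₀ + 1) ^ 2 * S ^ 2 := mul_le_mul_of_nonneg_right (by nlinarith) (sq_nonneg S)
    calc _ ≤ _ := this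
      _ = _ := by ring
  intro z
  have h3 := (hw0 z).trans hCS
  simp only [hw] at h3
  have h4 : 0 ≤ μ * f z ^ 2 := mul_nonneg hμ0 (sq_nonneg _)
  have h5 : 0 ≤ (C₀ + 1) * S := by positivity
  have h6 := sq_nonneg (py f z)
  have h7 := sq_nonneg (px f z)
  constructor
  · apply abs_le_of_sq_le_sq _ h5
    linarith
  · apply abs_le_of_sq_le_sq _ h5
    linarith

lemma lip {u u' : ℝ → ℝ} {C : ℝ} (hu : ∀ x, HasDerivAt u (u' x) x) (hb : ∀ x, |u' x| ≤ C) (x y : ℝ) :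
    |u x - u y| ≤ C * |x - y| := by
  have := Convex.norm_image_sub_le_of_norm_hasDerivWithin_le (f := u) (f' := u') (s := univ) (C := C)
    (fun x _ => (hu x).hasDerivWithinAt) (fun x _ => hb x) convex_univ (mem_univ y) (mem_univ x)
  simpa using this

lemma grid {L₁ L₂ : ℝ} (h₁ : 0 < L₁) (h₂ : 0 < L₂) {α β : ℝ → ℝ} (hα : ContDiff ℝ ∞ α)
    (hβ : ContDiff ℝ ∞ β) (hαp : Function.Periodic α L₁) (hβp : Function.Periodic β L₂) :
    ∃ N : ℕ, 0 < N ∧ ∀ f, Sol L₁ L₂ α β f →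
      (∀ i j : Fin N, f (i * (L₁ / N), j * (L₂ / N)) = 0) → f = 0 := by
  obtain ⟨C, hC, hCC⟩ := bernstein h₁ h₂ hα hβ hαp hβp
  obtain ⟨N, hN⟩ := exists_nat_gt (C * (L₁ + L₂))
  have hN0 : (0 : ℝ) < N := lt_of_le_of_lt (by positivity) hN
  have hNN : 0 < N := by exact_mod_cast hN0
  refine ⟨N, hNN, ?_⟩
  intro f hf hz
  have habs : Per L₁ L₂ fun z => |f z| := ⟨fun x y => congrArg abs (hf.per.1 x y), fun x y => congrArg abs (hf.per.2 x y)⟩
  obtain ⟨z₀, hz₀⟩ := habs.exists_max h₁ h₂ hf.smooth.continuous.abs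
  set S := |f z₀| with hS
  have hb := hCC f hf S hz₀
  -- the value at the maximum
  have hkey : S ≤ C * S * (L₁ / N) + C * S * (L₂ / N) := by
    have hpx : Function.Periodic (fun s => f (s, z₀.2)) L₁ := fun s => hf.per.1 s z₀.2
    obtain ⟨x, hx0, hx'⟩ := hpx.exists_mem_Ico₀ h₁ z₀.1
    have hpy : Function.Periodic (fun t => f (x, t)) L₂ := fun t => hf.per.2 x t
    obtain ⟨y, hy0, hy'⟩ := hpy.exists_mem_Ico₀ h₂ z₀.2
    have e : f z₀ = f (x, y) := by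
      have a1 : f z₀ = f (x, z₀.2) := hx'
      have a2 : f (x, z₀.2) = f (x, y) := hy'
      rw [a1, a2]
    have hfl : ∀ (L x : ℝ), 0 < L → x ∈ Ico (0 : ℝ) L → ∃ i : Fin N, |x - i * (L / N)| ≤ L / N := by
      intro L x hL hx
      have hd : 0 < L / N := by positivity
      have h1 : (⌊x / (L / N)⌋₊ : ℝ) ≤ x / (L / N) := Nat.floor_le (div_nonneg hx.1 hd.le)
      have h2 : x / (L / N) < ⌊x / (L / N)⌋₊ + 1 := Nat.lt_floor_add_one _
      have h3 : ⌊x / (L / N)⌋₊ < N := by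
        rw [Nat.floor_lt (div_nonneg hx.1 hd.le), div_lt_iff₀ hd, mul_div_cancel₀ _ hN0.ne']
        exact hx.2
      refine ⟨⟨_, h3⟩, ?_⟩
      rw [le_div_iff₀ hd] at h1
      rw [div_lt_iff₀ hd] at h2
      rw [abs_le]
      constructor
      · simp only; linarith
      · simp only; linarith
    obtain ⟨i, hi⟩ := hfl L₁ x h₁ hx0
    obtain ⟨j, hj⟩ := hfl L₂ y h₂ hy0
    have hS0 : 0 ≤ S := abs_nonneg _
    have l1 := lip (u := fun s => f (s, y)) (u' := fun s => px f (s, y)) (C := C * S)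
      (fun s => hx hf.smooth s y) (fun s => (hb (s, y)).1) x (i * (L₁ / N))
    have l2 := lip (u := fun t => f (i * (L₁ / N), t)) (u' := fun t => py f (i * (L₁ / N), t)) (C := C * S)
      (fun t => hy hf.smooth _ t) (fun t => (hb (_, t)).2) y (j * (L₂ / N))
    have hCS : 0 ≤ C * S := by positivity
    have l1' := l1.trans (mul_le_mul_of_nonneg_left hi hCS)
    have l2' := l2.trans (mul_le_mul_of_nonneg_left hj hCS)
    simp only [hz i j, sub_zero] at l2'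
    have l3 : |f (x, y)| ≤ |f (x, y) - f (i * (L₁ / N), y)| + |f (i * (L₁ / N), y)| := by
      have := abs_add_le (f (x, y) - f (i * (L₁ / N), y)) (f (i * (L₁ / N), y))
      simpa using this
    rw [hS, e]
    rw [hS, e] at l1' l2'
    linarith
  have hS0 : S = 0 := by
    by_contra hne
    have hSp : 0 < S := lt_of_le_of_ne (abs_nonneg _) (Ne.symm hne)
    have h3 : C * S * (L₁ / N) + C * S * (L₂ / N) = S * (C * (L₁ + L₂) / N) := by ring
    rw [h3] at hkey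
    have h4 : C * (L₁ + L₂) / N < 1 := by rw [div_lt_one hN0]; exact hN
    nlinarith
  ext z
  have h5 : |f z| ≤ S := hz₀ z
  rw [hS0] at h5
  exact abs_eq_zero.1 (le_antisymm h5 (abs_nonneg _))

end Pool.Agent.Q167.LV
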