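import Mathlib
import Pool.Agent.Q167.LV.Five
set_option autoImplicit false

/-! # Separation of variables for all solutions -/

namespace Pool.Agent.Q167.LV

open Set Filter Topology
open scoped ContDiff

/-- `∂_y² + β` -/
noncomputable def TT (β : ℝ → ℝ) (f : ℝ × ℝ → ℝ) : ℝ × ℝ → ℝ := py (py f) + my β f
/-- `∂_x² + α` -/
noncomputable def SS (α : ℝ → ℝ) (f : ℝ × ℝ → ℝ) : ℝ × ℝ → ℝ := px (px f) + mx α f

lemma TT_smooth {β : ℝ → ℝ} {f : ℝ × ℝ → ℝ} (hβ : ContDiff ℝ ∞ β) (hf : ContDiff ℝ ∞ f) :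
    ContDiff ℝ ∞ (TT β f) := (py_smooth (py_smooth hf)).add (my_smooth hβ hf)

lemma c2 {f : ℝ × ℝ → ℝ} (hf : ContDiff ℝ ∞ f) : px (py (py f)) = py (py (px f)) := by
  rw [comm (py_smooth hf), comm hf]

lemma c4 {f : ℝ × ℝ → ℝ} (hf : ContDiff ℝ ∞ f) : px (px (py (py f))) = py (py (px (px f))) := by
  rw [c2 hf, c2 (px_smooth hf)]

lemma mx_my (α β : ℝ → ℝ) (f : ℝ × ℝ → ℝ) : mx α (my β f) = my β (mx α f) := by
  ext z; simp only [mx, my]; ring

lemma mx_add (α : ℝ → ℝ) (f g : ℝ × ℝ → ℝ) : mx α (f + g) = mx α f + mx α g := by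
  ext z; simp only [mx, Pi.add_apply]; ring

lemma my_add (β : ℝ → ℝ) (f g : ℝ × ℝ → ℝ) : my β (f + g) = my β f + my β g := by
  ext z; simp only [my, Pi.add_apply]; ring

lemma my_smul (β : ℝ → ℝ) (c : ℝ) (f : ℝ × ℝ → ℝ) : my β (c • f) = c • my β f := by
  ext z; simp only [my, Pi.smul_apply, smul_eq_mul]; ring

lemma mx_smul (β : ℝ → ℝ) (c : ℝ) (f : ℝ × ℝ → ℝ) : mx β (c • f) = c • mx β f := by
  ext z; simp only [mx, Pi.smul_apply, smul_eq_mul]; ring

lemma TT_add {β : ℝ → ℝ} {f g : ℝ × ℝ → ℝ} (hf : ContDiff ℝ ∞ f) (hg : ContDiff ℝ ∞ g) :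
    TT β (f + g) = TT β f + TT β g := by
  unfold TT
  rw [py_add hf hg, py_add (py_smooth hf) (py_smooth hg), my_add]
  abel

lemma TT_smul {β : ℝ → ℝ} {f : ℝ × ℝ → ℝ} (c : ℝ) (hf : ContDiff ℝ ∞ f) :
    TT β (c • f) = c • TT β f := by
  unfold TT
  rw [py_smul c hf, py_smul c (py_smooth hf), my_smul, smul_add]

lemma SS_TT {α β : ℝ → ℝ} {f : ℝ × ℝ → ℝ} (hα : ContDiff ℝ ∞ α) (hβ : ContDiff ℝ ∞ β)
    (hf : ContDiff ℝ ∞ f) : SS α (TT β f) = TT β (SS α f) := by
  unfold SS TT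
  rw [px_add (py_smooth (py_smooth hf)) (my_smooth hβ hf), px_my hβ hf,
    px_add (px_smooth (py_smooth (py_smooth hf))) (my_smooth hβ (px_smooth hf)), px_my hβ (px_smooth hf),
    c4 hf, mx_add,
    py_add (px_smooth (px_smooth hf)) (mx_smooth hα hf), py_mx hα hf,
    py_add (py_smooth (px_smooth (px_smooth hf))) (mx_smooth hα (py_smooth hf)), py_mx hα (py_smooth hf),
    my_add, mx_my]
  abel

lemma Sol.eq {L₁ L₂ : ℝ} {α β : ℝ → ℝ} {f : ℝ × ℝ → ℝ} (h : Sol L₁ L₂ α β f) :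
    SS α f = (-1 : ℝ) • TT β f := by
  ext z
  have := h.pde z
  simp only [SS, TT, mx, my, Pi.add_apply, Pi.smul_apply, smul_eq_mul]
  linarith

lemma Sol.of {L₁ L₂ : ℝ} {α β : ℝ → ℝ} {f : ℝ × ℝ → ℝ} (hs : ContDiff ℝ ∞ f) (hp : Per L₁ L₂ f)
    (h : SS α f = (-1 : ℝ) • TT β f) : Sol L₁ L₂ α β f := by
  refine ⟨hs, hp, fun z => ?_⟩
  have := congrFun h z
  simp only [SS, TT, mx, my, Pi.add_apply, Pi.smul_apply, smul_eq_mul] at this
  linarith

lemma Per.add {L₁ L₂ : ℝ} {f g : ℝ × ℝ → ℝ} (hf : Per L₁ L₂ f) (hg : Per L₁ L₂ g) : Per L₁ L₂ (f + g) :=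
  ⟨fun x y => by simp only [Pi.add_apply, hf.1 x y, hg.1 x y],
    fun x y => by simp only [Pi.add_apply, hf.2 x y, hg.2 x y]⟩

lemma Per.smul {L₁ L₂ : ℝ} {f : ℝ × ℝ → ℝ} (c : ℝ) (hf : Per L₁ L₂ f) : Per L₁ L₂ (c • f) :=
  ⟨fun x y => by simp only [Pi.smul_apply, hf.1 x y], fun x y => by simp only [Pi.smul_apply, hf.2 x y]⟩

lemma Per.my {L₁ L₂ : ℝ} {β : ℝ → ℝ} (hβp : Function.Periodic β L₂) {f : ℝ × ℝ → ℝ} (hf : Per L₁ L₂ f) :
    Per L₁ L₂ (my β f) :=
  ⟨fun x y => by simp only [LV.my, hf.1 x y], fun x y => by simp only [LV.my, hf.2 x y, hβp y]⟩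

lemma Sol.TT {L₁ L₂ : ℝ} {α β : ℝ → ℝ} (hα : ContDiff ℝ ∞ α) (hβ : ContDiff ℝ ∞ β)
    (hβp : Function.Periodic β L₂) {f : ℝ × ℝ → ℝ} (h : Sol L₁ L₂ α β f) : Sol L₁ L₂ α β (TT β f) := by
  have hs := h.smooth
  apply Sol.of (TT_smooth hβ hs)
  · exact ((h.per.py hs).py (py_smooth hs)).add (Per.my hβp h.per)
  · rw [SS_TT hα hβ hs, h.eq, TT_smul _ (TT_smooth hβ hs)]

lemma Sol.add {L₁ L₂ : ℝ} {α β : ℝ → ℝ} {f g : ℝ × ℝ → ℝ} (hf : Sol L₁ L₂ α β f)
    (hg : Sol L₁ L₂ α β g) : Sol L₁ L₂ α β (f + g) := by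
  refine ⟨hf.smooth.add hg.smooth, hf.per.add hg.per, fun z => ?_⟩
  rw [px_add hf.smooth hg.smooth, py_add hf.smooth hg.smooth, px_add (px_smooth hf.smooth) (px_smooth hg.smooth),
    py_add (py_smooth hf.smooth) (py_smooth hg.smooth)]
  have h1 := hf.pde z
  have h2 := hg.pde z
  simp only [Pi.add_apply]
  linarith

lemma Sol.smul {L₁ L₂ : ℝ} {α β : ℝ → ℝ} {f : ℝ × ℝ → ℝ} (c : ℝ) (hf : Sol L₁ L₂ α β f) :
    Sol L₁ L₂ α β (c • f) := by
  refine ⟨contDiff_const.smul hf.smooth, hf.per.smul c, fun z => ?_⟩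
  rw [px_smul c hf.smooth, py_smul c hf.smooth, px_smul c (px_smooth hf.smooth),
    py_smul c (py_smooth hf.smooth)]
  have h1 := hf.pde z
  simp only [Pi.smul_apply, smul_eq_mul]
  rw [← mul_add, h1]; ring

lemma px_zero : px (0 : ℝ × ℝ → ℝ) = 0 := px_of contDiff_const fun _ _ => hasDerivAt_const _ _
lemma py_zero : py (0 : ℝ × ℝ → ℝ) = 0 := py_of contDiff_const fun _ _ => hasDerivAt_const _ _

lemma Sol.zero {L₁ L₂ : ℝ} {α β : ℝ → ℝ} : Sol L₁ L₂ α β (0 : ℝ × ℝ → ℝ) := by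
  refine ⟨contDiff_const, ⟨fun _ _ => rfl, fun _ _ => rfl⟩, fun z => ?_⟩
  rw [px_zero, px_zero, py_zero, py_zero]
  simp

/-- the space of solutions -/
def VV (L₁ L₂ : ℝ) (α β : ℝ → ℝ) : Submodule ℝ (ℝ × ℝ → ℝ) where
  carrier := {f | Sol L₁ L₂ α β f}
  add_mem' := fun hf hg => Sol.add hf hg
  zero_mem' := Sol.zero
  smul_mem' := fun c _ hf => Sol.smul c hf

/-- symmetry of `∂_y² + β` on circles -/
lemma symm_circle {L₂ : ℝ} {β : ℝ → ℝ} {L₁ : ℝ} {f g : ℝ × ℝ → ℝ} (hβ : ContDiff ℝ ∞ β)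
    (hf : ContDiff ℝ ∞ f) (hg : ContDiff ℝ ∞ g)
    (pf : Per L₁ L₂ f) (pg : Per L₁ L₂ g) (x : ℝ) :
    ∫ y in (0 : ℝ)..L₂, TT β f (x, y) * g (x, y) = ∫ y in (0 : ℝ)..L₂, f (x, y) * TT β g (x, y) := by
  have hc : ∀ {k : ℝ × ℝ → ℝ}, ContDiff ℝ ∞ k → Continuous fun y => k (x, y) := fun hk =>
    hk.continuous.comp (continuous_const.prodMk continuous_id)
  have h1 : ∀ y, HasDerivAt (fun y => py f (x, y) * g (x, y) - f (x, y) * py g (x, y))
      (TT β f (x, y) * g (x, y) - f (x, y) * TT β g (x, y)) y := by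
    intro y
    have := ((hy (py_smooth hf) x y).fun_mul (hy hg x y)).fun_sub ((hy hf x y).fun_mul (hy (py_smooth hg) x y))
    refine this.congr_deriv ?_
    simp only [TT, my, Pi.add_apply]
    ring
  have h2 := intervalIntegral.integral_eq_sub_of_hasDerivAt (a := 0) (b := L₂) (fun y _ => h1 y)
    ((((hc (TT_smooth hβ hf)).mul (hc hg)).sub ((hc hf).mul (hc (TT_smooth hβ hg)))).intervalIntegrable _ _)
  have i1 : IntervalIntegrable (fun y => TT β f (x, y) * g (x, y)) MeasureTheory.volume 0 L₂ :=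
    ((hc (TT_smooth hβ hf)).mul (hc hg)).intervalIntegrable _ _
  have i2 : IntervalIntegrable (fun y => f (x, y) * TT β g (x, y)) MeasureTheory.volume 0 L₂ :=
    ((hc hf).mul (hc (TT_smooth hβ hg))).intervalIntegrable _ _
  rw [intervalIntegral.integral_sub i1 i2] at h2
  have p1 : ∀ {k : ℝ × ℝ → ℝ}, Per L₁ L₂ k → k (x, L₂) = k (x, 0) := by
    intro k hk
    have := hk.2 x 0
    rwa [zero_add] at this
  rw [p1 pf, p1 pg, p1 (pf.py hf), p1 (pg.py hg), sub_self] at h2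
  linarith

theorem decomp {L₁ L₂ : ℝ} (h₁ : 0 < L₁) (h₂ : 0 < L₂) {α β : ℝ → ℝ} (hα : ContDiff ℝ ∞ α)
    (hβ : ContDiff ℝ ∞ β) (hαp : Function.Periodic α L₁) (hβp : Function.Periodic β L₂)
    {f : ℝ × ℝ → ℝ} (hf : Sol L₁ L₂ α β f) :
    ∃ (n : ℕ) (g : Fin n → ℝ × ℝ → ℝ) (κ : Fin n → ℝ), (∀ z, f z = ∑ i, g i z) ∧
      ∀ i, Sol L₁ L₂ α β (g i) ∧ (∀ z, py (py (g i)) z = -((β z.2 + -κ i) * g i z)) ∧
        ∀ z, px (px (g i)) z = -((α z.1 + κ i) * g i z) := by
  obtain ⟨N, hN, hgrid⟩ := grid h₁ h₂ hα hβ hαp hβp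
  -- finite dimension
  let ev : VV L₁ L₂ α β →ₗ[ℝ] (Fin N × Fin N → ℝ) :=
    { toFun := fun f p => f.1 (p.1 * (L₁ / N), p.2 * (L₂ / N))
      map_add' := fun f g => by ext p; rfl
      map_smul' := fun c f => by ext p; rfl }
  have hinj : Function.Injective ev := by
    rw [← LinearMap.ker_eq_bot, LinearMap.ker_eq_bot']
    intro g hg
    have h1 : g.1 = 0 := hgrid g.1 g.2 fun i j => congrFun hg (i, j)
    exact Subtype.ext h1
  have : FiniteDimensional ℝ (VV L₁ L₂ α β) := Module.Finite.of_injective ev hinj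
  let T : VV L₁ L₂ α β →ₗ[ℝ] VV L₁ L₂ α β :=
    { toFun := fun f => ⟨TT β f.1, Sol.TT hα hβ hβp f.2⟩
      map_add' := fun f g => Subtype.ext (TT_add f.2.smooth g.2.smooth)
      map_smul' := fun c f => Subtype.ext (TT_smul c f.2.smooth) }
  let B : VV L₁ L₂ α β → VV L₁ L₂ α β → ℝ := fun f g =>
    ∑ i : Fin N, ∫ y in (0 : ℝ)..L₂, f.1 (i * (L₁ / N), y) * g.1 (i * (L₁ / N), y)
  have hc : ∀ (k : VV L₁ L₂ α β) (x : ℝ), Continuous fun y => k.1 (x, y) := fun k x =>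
    k.2.smooth.continuous.comp (continuous_const.prodMk continuous_id)
  obtain ⟨n, v, κ, hv, hTv⟩ := spectral B
    (by
      intro f g h
      simp only [B]
      rw [← Finset.sum_add_distrib]
      apply Finset.sum_congr rfl
      intro i _
      have i1 : IntervalIntegrable (fun y => f.1 (i * (L₁ / N), y) * h.1 (i * (L₁ / N), y))
          MeasureTheory.volume 0 L₂ := ((hc f _).mul (hc h _)).intervalIntegrable _ _
      have i2 : IntervalIntegrable (fun y => g.1 (i * (L₁ / N), y) * h.1 (i * (L₁ / N), y))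
          MeasureTheory.volume 0 L₂ := ((hc g _).mul (hc h _)).intervalIntegrable _ _
      rw [← intervalIntegral.integral_add i1 i2]
      apply intervalIntegral.integral_congr
      intro y _
      simp only [Submodule.coe_add, Pi.add_apply]
      ring)
    (by
      intro c f g
      simp only [B]
      rw [Finset.mul_sum]
      apply Finset.sum_congr rfl
      intro i _
      rw [← intervalIntegral.integral_const_mul]
      apply intervalIntegral.integral_congr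
      intro y _
      simp only [Submodule.coe_smul, Pi.smul_apply, smul_eq_mul]
      ring)
    (by
      intro f g
      simp only [B]
      apply Finset.sum_congr rfl
      intro i _
      apply intervalIntegral.integral_congr
      intro y _
      simp only
      ring)
    (by
      intro f
      simp only [B]
      apply Finset.sum_nonneg
      intro i _
      apply intervalIntegral.integral_nonneg h₂.le
      intro y _
      exact mul_self_nonneg _)
    (by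
      intro f hf0
      simp only [B] at hf0
      rw [Finset.sum_eq_zero_iff_of_nonneg (fun i _ =>
        intervalIntegral.integral_nonneg h₂.le fun y _ => mul_self_nonneg _)] at hf0
      apply Subtype.ext
      apply hgrid f.1 f.2
      intro i j
      have h3 := hf0 i (Finset.mem_univ i)
      by_contra hne
      have h4 : 0 < ∫ y in (0 : ℝ)..L₂, f.1 (i * (L₁ / N), y) * f.1 (i * (L₁ / N), y) := by
        apply intervalIntegral.integral_pos h₂
        · exact ((hc f _).mul (hc f _)).continuousOn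
        · intro y _; exact mul_self_nonneg _
        · refine ⟨j * (L₂ / N), ⟨by positivity, ?_⟩, mul_self_pos.2 hne⟩
          have hN0 : (0 : ℝ) < N := by exact_mod_cast hN
          have h5 : ((j : ℕ) : ℝ) ≤ N := by exact_mod_cast j.2.le
          calc ((j : ℕ) : ℝ) * (L₂ / N) ≤ N * (L₂ / N) := mul_le_mul_of_nonneg_right h5 (by positivity)
            _ = L₂ := mul_div_cancel₀ _ hN0.ne'
      linarith)
    T
    (by
      intro f g
      simp only [B]
      apply Finset.sum_congr rfl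
      intro i _
      exact symm_circle hβ f.2.smooth g.2.smooth f.2.per g.2.per _)
    ⟨f, hf⟩
  refine ⟨n, fun i => (v i).1, κ, ?_, ?_⟩
  · intro z
    have h3 := congrArg Subtype.val hv
    have h4 : f = ∑ i, (v i).1 := by
      rw [← Submodule.coe_sum]
      exact h3
    rw [h4, Finset.sum_apply]
  · intro i
    have hsol : Sol L₁ L₂ α β (v i).1 := (v i).2
    have h3 : TT β (v i).1 = κ i • (v i).1 := congrArg Subtype.val (hTv i)
    refine ⟨hsol, fun z => ?_, fun z => ?_⟩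
    · have h4 := congrFun h3 z
      simp only [TT, my, Pi.add_apply, Pi.smul_apply, smul_eq_mul] at h4
      linarith
    · have h4 := congrFun h3 z
      have h5 := hsol.pde z
      simp only [TT, my, Pi.add_apply, Pi.smul_apply, smul_eq_mul] at h4
      linarith

end Pool.Agent.Q167.LV
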