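import Mathlib
import Pool.Agent.Q167.LV.Six
set_option autoImplicit false

/-! # Zeros on coordinate circles -/

namespace Pool.Agent.Q167.LV

open Set Filter Topology
open scoped ContDiff

lemma kappa_bound {L₁ L₂ : ℝ} (h₁ : 0 < L₁) (h₂ : 0 < L₂) {α β : ℝ → ℝ} {g : ℝ × ℝ → ℝ} {κ : ℝ}
    (hg : Sol L₁ L₂ α β g) (hyy : ∀ z, py (py g) z = -((β z.2 + -κ) * g z))
    (hxx : ∀ z, px (px g) z = -((α z.1 + κ) * g z)) (hne : ∃ z, g z ≠ 0) :
    ∃ x y, -α x ≤ κ ∧ κ ≤ β y := by
  have hs := hg.smooth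
  have hper : Per L₁ L₂ fun z => g z ^ 2 :=
    ⟨fun x y => congrArg (· ^ 2) (hg.per.1 x y), fun x y => congrArg (· ^ 2) (hg.per.2 x y)⟩
  obtain ⟨⟨x, y⟩, hmax⟩ := hper.exists_max h₁ h₂ (hs.continuous.pow 2)
  have hpos : 0 < g (x, y) ^ 2 := by
    obtain ⟨z, hz⟩ := hne
    have h3 : 0 < g z ^ 2 := by positivity
    exact lt_of_lt_of_le h3 (hmax z)
  have z0 : ∀ x : ℝ, HasDerivAt (fun _ : ℝ => (0 : ℝ)) 0 x := fun x => hasDerivAt_const x 0
  have E1 := three_sq (F := fun _ => 0) (G := fun _ => 0) (H := fun s => g (s, y))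
    (F' := fun _ => 0) (G' := fun _ => 0) (H' := fun s => px g (s, y)) (s := x) (μ := 1) z0 z0
    (fun s => hx hs s y) (z0 x) (z0 x) (hx (px_smooth hs) x y)
    (Eventually.of_forall fun s => by simpa using hmax (s, y))
  have E2 := three_sq (F := fun _ => 0) (G := fun _ => 0) (H := fun s => g (x, s))
    (F' := fun _ => 0) (G' := fun _ => 0) (H' := fun s => py g (x, s)) (s := y) (μ := 1) z0 z0
    (fun s => hy hs x s) (z0 y) (z0 y) (hy (py_smooth hs) x y)
    (Eventually.of_forall fun s => by simpa using hmax (x, s))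
  simp only [hxx, hyy] at E1 E2
  refine ⟨x, y, ?_, ?_⟩
  · by_contra hcon
    push Not at hcon
    have h3 : 0 < (-α x - κ) * g (x, y) ^ 2 := mul_pos (by linarith) hpos
    nlinarith [sq_nonneg (px g (x, y))]
  · by_contra hcon
    push Not at hcon
    have h3 : 0 < (κ - β y) * g (x, y) ^ 2 := mul_pos (by linarith) hpos
    nlinarith [sq_nonneg (py g (x, y))]

theorem circle {L₁ L₂ : ℝ} (h₁ : 0 < L₁) (h₂ : 0 < L₂) {α β : ℝ → ℝ} (hα : ContDiff ℝ ∞ α)
    (hβ : ContDiff ℝ ∞ β) (hαp : Function.Periodic α L₁) (hβp : Function.Periodic β L₂) {K : ℝ}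
    (hK : 0 < K) (hαβ : ∀ x y, α x + β y ≤ K ^ 2) {f : ℝ × ℝ → ℝ} (hf : Sol L₁ L₂ α β f) :
    (∀ y, (∃ x, f (x, y) ≠ 0) → ∀ n, 0 < n → ZZ L₁ (fun x => f (x, y)) n → (n : ℝ) ≤ L₁ * K) ∧
    ∀ x, (∃ y, f (x, y) ≠ 0) → ∀ n, 0 < n → ZZ L₂ (fun y => f (x, y)) n → (n : ℝ) ≤ L₂ * K := by
  obtain ⟨m, g, κ, hsum, hg⟩ := decomp h₁ h₂ hα hβ hαp hβp hf
  constructor
  · intro y hne n hn hz
    have e : (fun x => f (x, y)) = fun x => ∑ i, g i (x, y) := funext fun x => hsum _
    rw [e] at hz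
    apply sturm h₁ hK hα.continuous hαp κ (fun i x => g i (x, y)) (fun i x => px (g i) (x, y))
      (fun i x => hx (hg i).1.smooth x y) _ (fun i x => (hg i).1.per.1 x y) _ _ hn hz
    · intro i x
      have := hx (px_smooth (hg i).1.smooth) x y
      rwa [(hg i).2.2] at this
    · intro i hi x
      obtain ⟨s, hs⟩ := hi
      obtain ⟨x', y', -, h3⟩ := kappa_bound h₁ h₂ (hg i).1 (hg i).2.1 (hg i).2.2 ⟨_, hs⟩
      have := hαβ x y'
      linarith
    · obtain ⟨x, hx⟩ := hne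
      exact ⟨x, by rw [← hsum]; exact hx⟩
  · intro x hne n hn hz
    have e : (fun y => f (x, y)) = fun y => ∑ i, g i (x, y) := funext fun y => hsum _
    rw [e] at hz
    apply sturm h₂ hK hβ.continuous hβp (fun i => -κ i) (fun i y => g i (x, y)) (fun i y => py (g i) (x, y))
      (fun i y => hy (hg i).1.smooth x y) _ (fun i y => (hg i).1.per.2 x y) _ _ hn hz
    · intro i y
      have := hy (py_smooth (hg i).1.smooth) x y
      rwa [(hg i).2.1] at this
    · intro i hi y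
      obtain ⟨s, hs⟩ := hi
      obtain ⟨x', y', h3, -⟩ := kappa_bound h₁ h₂ (hg i).1 (hg i).2.1 (hg i).2.2 ⟨_, hs⟩
      have := hαβ x' y
      linarith
    · obtain ⟨y, hy⟩ := hne
      exact ⟨y, by rw [← hsum]; exact hy⟩

lemma ZZ_of_finset {L τ : ℝ} {u : ℝ → ℝ} (hu : Function.Periodic u L) (S : Finset ℝ)
    (hS : ∀ x ∈ S, τ ≤ x ∧ x < τ + L) (h0 : ∀ x ∈ S, u x = 0) (hpos : 0 < S.card) : ZZ L u S.card := by
  set k := S.card with hk
  set e := S.orderEmbOfFin (rfl : S.card = k) with he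
  have hmod : ∀ i, i % k < k := fun i => Nat.mod_lt _ hpos
  have hmem : ∀ j, e j ∈ S := fun j => S.orderEmbOfFin_mem rfl j
  refine ⟨fun i => e ⟨i % k, hmod i⟩ + (i / k : ℕ) * L, ?_, ?_, ?_⟩
  · apply strictMono_nat_of_lt_succ
    intro i
    have h1 := Nat.mod_add_div i k
    rcases lt_or_ge (i % k + 1) k with h | h
    · have e1 : (i + 1) % k = i % k + 1 := by
        rw [Nat.add_mod, Nat.mod_eq_of_lt (show 1 < k by omega), Nat.mod_eq_of_lt h]
      have e2 : (i + 1) / k = i / k := by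
        rw [Nat.add_div hpos, Nat.mod_eq_of_lt (show 1 < k by omega), if_neg (by omega),
          Nat.div_eq_of_lt (show 1 < k by omega)]
        rfl
      have e3 : e ⟨i % k, hmod i⟩ < e ⟨(i + 1) % k, hmod (i + 1)⟩ := by
        apply e.strictMono
        simp only [Fin.mk_lt_mk, e1]
        omega
      rw [e2]
      linarith
    · have h2 : i % k + 1 = k := le_antisymm (hmod i) h
      have h3 : i + 1 = k * (i / k + 1) := by
        rw [mul_add, mul_one]; omega
      have e2 : (i + 1) / k = i / k + 1 := by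
        rw [h3, Nat.mul_div_cancel_left _ hpos]
      have a1 := (hS _ (hmem ⟨i % k, hmod i⟩)).2
      have a2 := (hS _ (hmem ⟨(i + 1) % k, hmod (i + 1)⟩)).1
      rw [e2]
      push_cast
      linarith
  · intro i
    simp only [Nat.add_mod_right]
    rw [Nat.add_div_right i hpos]
    push_cast
    ring
  · intro i
    have h1 : u (e ⟨i % k, hmod i⟩ + (i / k : ℕ) * L) = u (e ⟨i % k, hmod i⟩) := by
      exact hu.nat_mul (i / k) _
    rw [h1]
    exact h0 _ (hmem _)

/-- zeros in one period -/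
lemma zeros_finite {L : ℝ} {u : ℝ → ℝ} (hu : Function.Periodic u L) {M : ℝ} 
    (hc : ∀ n, 0 < n → ZZ L u n → (n : ℝ) ≤ M) (τ : ℝ) :
    {x | u x = 0 ∧ τ ≤ x ∧ x < τ + L}.Finite ∧ ∀ S : Finset ℝ, 0 < S.card →
      (∀ x ∈ S, u x = 0 ∧ τ ≤ x ∧ x < τ + L) → (S.card : ℝ) ≤ M := by
  have h1 : ∀ S : Finset ℝ, 0 < S.card →
      (∀ x ∈ S, u x = 0 ∧ τ ≤ x ∧ x < τ + L) → (S.card : ℝ) ≤ M := by
    intro S hS h
    exact hc _ hS (ZZ_of_finset hu S (fun x hx => (h x hx).2) (fun x hx => (h x hx).1) hS)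
  refine ⟨?_, h1⟩
  by_contra hinf
  obtain ⟨n, hn⟩ := exists_nat_gt M
  obtain ⟨S, hS, hcard⟩ := Set.Infinite.exists_subset_card_eq hinf (n + 1)
  have h2 := h1 S (by omega) (fun x hx => hS hx)
  rw [hcard] at h2
  push_cast at h2
  linarith

lemma zeros_countable {L : ℝ} (hL : 0 < L) {u : ℝ → ℝ} (hu : Function.Periodic u L) {M : ℝ} 
    (hc : ∀ n, 0 < n → ZZ L u n → (n : ℝ) ≤ M) : {x | u x = 0}.Countable := by
  have h1 : {x | u x = 0} ⊆ ⋃ k : ℤ, {x | u x = 0 ∧ (k : ℝ) * L ≤ x ∧ x < (k : ℝ) * L + L} := by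
    intro x hx
    have a1 := Int.floor_le (x / L)
    have a2 := Int.lt_floor_add_one (x / L)
    rw [le_div_iff₀ hL] at a1
    rw [div_lt_iff₀ hL] at a2
    exact mem_iUnion.2 ⟨⌊x / L⌋, hx, a1, by linarith⟩
  exact (countable_iUnion fun k => (zeros_finite hu hc _).1.countable).mono h1

/-- the number of subintervals which contain zeros -/
lemma line_count {L : ℝ} (hL : 0 < L) {u : ℝ → ℝ} (hu : Function.Periodic u L) {M : ℝ} (hM : 0 ≤ M)
    (hc : ∀ n, 0 < n → ZZ L u n → (n : ℝ) ≤ M) (τ : ℝ) {N : ℕ} (hN : 0 < N) (V : Finset ℕ)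
    (hV : ∀ j ∈ V, j < N + 2 ∧ ∃ z, τ + j * (L / N) ≤ z ∧ z < τ + (j + 1) * (L / N) ∧ u z = 0) :
    (V.card : ℝ) ≤ 3 * M := by
  classical
  have hN0 : (0 : ℝ) < N := by exact_mod_cast hN
  have hd : 0 < L / N := by positivity
  rcases V.eq_empty_or_nonempty with h | ⟨j₀, hj₀⟩
  · rw [h]; simpa using hM
  have hM1 : 1 ≤ M := by
    obtain ⟨-, z, -, -, hz⟩ := hV j₀ hj₀
    have := hc 1 one_pos ⟨fun i => z + i * L, ?_, ?_, ?_⟩
    · simpa using this
    · apply strictMono_nat_of_lt_succ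
      intro i
      push_cast
      nlinarith
    · intro i; push_cast; ring
    · intro i
      have h1 : u (z + (i : ℕ) * L) = u z := hu.nat_mul i z
      rw [h1, hz]
  choose! z hz1 hz2 hz3 using fun j hj => (hV j hj).2
  set J := V.filter (· < N) with hJ
  have hJV : ∀ j ∈ J, j ∈ V ∧ j < N := fun j hj => by simpa [hJ] using hj
  have hJM : (J.card : ℝ) ≤ M := by
    rcases Nat.eq_zero_or_pos J.card with h | h
    · rw [h]; simpa using hM
    · have hinj : Set.InjOn z J := by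
        intro i hi j hj hij
        obtain ⟨hi1, -⟩ := hJV i hi
        obtain ⟨hj1, -⟩ := hJV j hj
        have a1 := hz1 i hi1
        have a2 := hz2 i hi1
        have a3 := hz1 j hj1
        have a4 := hz2 j hj1
        rw [hij] at a1 a2
        have b1 : (i : ℝ) * (L / N) < (j + 1) * (L / N) := by linarith
        have b2 : (j : ℝ) * (L / N) < (i + 1) * (L / N) := by linarith
        have c1 : (i : ℝ) < j + 1 := lt_of_mul_lt_mul_right b1 hd.le
        have c2 : (j : ℝ) < i + 1 := lt_of_mul_lt_mul_right b2 hd.le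
        have d1 : i < j + 1 := by exact_mod_cast c1
        have d2 : j < i + 1 := by exact_mod_cast c2
        omega
      have hcard : (J.image z).card = J.card := Finset.card_image_of_injOn hinj
      rw [← hcard]
      apply (zeros_finite hu hc τ).2 _ (by rw [hcard]; exact h)
      intro x hx
      obtain ⟨j, hj, rfl⟩ := Finset.mem_image.1 hx
      obtain ⟨hj1, hjN⟩ := hJV j hj
      refine ⟨hz3 j hj1, ?_, ?_⟩
      · have := hz1 j hj1
        have : (0 : ℝ) ≤ j * (L / N) := by positivity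
        linarith
      · have h2 := hz2 j hj1
        have h3 : ((j : ℝ) + 1) ≤ N := by exact_mod_cast hjN
        have h4 : ((j : ℝ) + 1) * (L / N) ≤ N * (L / N) := mul_le_mul_of_nonneg_right h3 hd.le
        rw [mul_div_cancel₀ _ hN0.ne'] at h4
        linarith
  have hVJ : V ⊆ J ∪ {N, N + 1} := by
    intro j hj
    have h1 := (hV j hj).1
    rcases lt_or_ge j N with h | h
    · exact Finset.mem_union_left _ (by simp [hJ, hj, h])
    · apply Finset.mem_union_right
      simp only [Finset.mem_insert, Finset.mem_singleton]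
      omega
  have hcard : V.card ≤ J.card + 2 :=
    (Finset.card_le_card hVJ).trans ((Finset.card_union_le _ _).trans (Nat.add_le_add_left Finset.card_le_two _))
  have : (V.card : ℝ) ≤ J.card + 2 := by exact_mod_cast hcard
  linarith

end Pool.Agent.Q167.LV
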