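import Mathlib
import Pool.Agent.Q167.LV.Seven
set_option autoImplicit false

/-! # The maximum principle on small rectangles -/

namespace Pool.Agent.Q167.LV

open Set Filter Topology
open scoped ContDiff

/-- boundary of the rectangle -/
def bd (x₀ x₁ y₀ y₁ : ℝ) (z : ℝ × ℝ) : Prop := z.1 = x₀ ∨ z.1 = x₁ ∨ z.2 = y₀ ∨ z.2 = y₁

lemma maxp_pos {α β : ℝ → ℝ} {f : ℝ × ℝ → ℝ} (hs : ContDiff ℝ ∞ f)
    (hpde : ∀ z, px (px f) z + py (py f) z = -((α z.1 + β z.2) * f z)) {K : ℝ} (hK : 0 < K)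
    (hpos : ∀ x y, 0 < α x + β y) (hle : ∀ x y, α x + β y ≤ K ^ 2) {x₀ x₁ y₀ y₁ : ℝ}
    (hx₀₁ : x₀ ≤ x₁) (hy₀₁ : y₀ ≤ y₁) (hsmall : K * (x₁ - x₀) < 1)
    (hb : ∀ z ∈ Icc x₀ x₁ ×ˢ Icc y₀ y₁, bd x₀ x₁ y₀ y₁ z → 0 < f z) :
    ∀ z ∈ Icc x₀ x₁ ×ˢ Icc y₀ y₁, 0 < f z := by
  intro z₁ hz₁
  by_contra hcon
  push Not at hcon
  set Q : Set (ℝ × ℝ) := Icc x₀ x₁ ×ˢ Icc y₀ y₁ with hQ
  have hQc : IsCompact Q := isCompact_Icc.prod isCompact_Icc
  have hbc : IsCompact (Q ∩ {z | bd x₀ x₁ y₀ y₁ z}) := by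
    apply hQc.inter_right
    have h1 : IsClosed {z : ℝ × ℝ | z.1 = x₀} := isClosed_eq continuous_fst continuous_const
    have h2 : IsClosed {z : ℝ × ℝ | z.1 = x₁} := isClosed_eq continuous_fst continuous_const
    have h3 : IsClosed {z : ℝ × ℝ | z.2 = y₀} := isClosed_eq continuous_snd continuous_const
    have h4 : IsClosed {z : ℝ × ℝ | z.2 = y₁} := isClosed_eq continuous_snd continuous_const
    exact h1.union (h2.union (h3.union h4))
  obtain ⟨zb, hzb, hmin⟩ := hbc.exists_isMinOn ⟨(x₀, y₀), ⟨⟨⟨le_rfl, hx₀₁⟩, ⟨le_rfl, hy₀₁⟩⟩, Or.inl rfl⟩⟩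
    hs.continuous.continuousOn
  have hm : 0 < f zb := hb zb hzb.1 hzb.2
  set c := f zb / 2 with hc
  have hc0 : 0 < c := by positivity
  have hcm : ∀ z ∈ Q, bd x₀ x₁ y₀ y₁ z → c < f z := by
    intro z hz hbz
    have : f zb ≤ f z := hmin ⟨hz, hbz⟩
    rw [hc]; linarith
  set w : ℝ → ℝ := fun x => 1 - K ^ 2 * (x - x₀) ^ 2 with hw
  have hwpos : ∀ x ∈ Icc x₀ x₁, 0 < w x := by
    intro x hx
    have h1 : 0 ≤ K * (x - x₀) := mul_nonneg hK.le (by linarith [hx.1])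
    have h2 : K * (x - x₀) < 1 := lt_of_le_of_lt (mul_le_mul_of_nonneg_left (by linarith [hx.2]) hK.le) hsmall
    have h3 : w x = 1 - (K * (x - x₀)) ^ 2 := by simp only [hw]; ring
    rw [h3]; nlinarith
  have hwle : ∀ x, w x ≤ 1 := by
    intro x
    have : 0 ≤ K ^ 2 * (x - x₀) ^ 2 := by positivity
    simp only [hw]; linarith
  have hwc : Continuous w := by simp only [hw]; fun_prop
  obtain ⟨zs, hzs, hminq⟩ := hQc.exists_isMinOn (f := fun z : ℝ × ℝ => (f z - c) / w z.1) ⟨z₁, hz₁⟩ (by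
    apply ContinuousOn.div
    · exact (hs.continuous.sub continuous_const).continuousOn
    · exact (hwc.comp continuous_fst).continuousOn
    · intro z hz
      exact (hwpos z.1 hz.1).ne')
  set t := (f zs - c) / w zs.1 with ht
  have hwz : 0 < w zs.1 := hwpos _ hzs.1
  have ht0 : t < 0 := by
    have h1 : t ≤ (f z₁ - c) / w z₁.1 := hminq hz₁
    have h2 : (f z₁ - c) / w z₁.1 < 0 := div_neg_of_neg_of_pos (by linarith) (hwpos _ hz₁.1)
    linarith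
  have hfz : f zs = c + t * w zs.1 := by
    rw [ht, div_mul_cancel₀ _ hwz.ne']; ring
  have hnb : ¬ bd x₀ x₁ y₀ y₁ zs := by
    intro h
    have h1 := hcm zs hzs h
    have h2 : 0 < t := div_pos (by linarith) hwz
    linarith
  have hk : ∀ z ∈ Q, 0 ≤ f z - c - t * w z.1 := by
    intro z hz
    have h1 : t ≤ (f z - c) / w z.1 := hminq hz
    rw [le_div_iff₀ (hwpos _ hz.1)] at h1
    linarith
  simp only [bd, not_or] at hnb
  obtain ⟨n1, n2, n3, n4⟩ := hnb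
  obtain ⟨⟨a1, a2⟩, ⟨a3, a4⟩⟩ := hzs
  have b1 : x₀ < zs.1 := lt_of_le_of_ne a1 (Ne.symm n1)
  have b2 : zs.1 < x₁ := lt_of_le_of_ne a2 n2
  have b3 : y₀ < zs.2 := lt_of_le_of_ne a3 (Ne.symm n3)
  have b4 : zs.2 < y₁ := lt_of_le_of_ne a4 n4
  have hzero : f (zs.1, zs.2) - c - t * w zs.1 = 0 := by
    show f zs - c - t * w zs.1 = 0
    rw [hfz]; ring
  have hwd : ∀ x, HasDerivAt w (-(2 * K ^ 2 * (x - x₀))) x := by
    intro x
    have e1 : HasDerivAt (fun x : ℝ => (x - x₀) ^ 2) (2 * (x - x₀)) x := by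
      have := (((hasDerivAt_id x).sub_const x₀).fun_pow 2)
      refine this.congr_deriv ?_
      push_cast
      simp
    refine ((e1.const_mul (K ^ 2)).const_sub 1).congr_deriv ?_
    ring
  -- second derivative in x
  have S1 : 0 ≤ px (px f) zs + 2 * t * K ^ 2 := by
    have h1 : ∀ x, HasDerivAt (fun s => f (s, zs.2) - c - t * w s)
        (px f (x, zs.2) - t * (-(2 * K ^ 2 * (x - x₀)))) x := fun x =>
      ((hx hs x zs.2).sub_const c).fun_sub ((hwd x).const_mul t)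
    have h2 : HasDerivAt (fun x => px f (x, zs.2) - t * (-(2 * K ^ 2 * (x - x₀))))
        (px (px f) (zs.1, zs.2) + 2 * t * K ^ 2) zs.1 := by
      have e1 : HasDerivAt (fun x : ℝ => t * (-(2 * K ^ 2 * (x - x₀)))) (t * (-(2 * K ^ 2 * 1))) zs.1 :=
        ((((hasDerivAt_id zs.1).sub_const x₀).const_mul (2 * K ^ 2)).fun_neg).const_mul t
      refine ((hx (px_smooth hs) zs.1 zs.2).fun_sub e1).congr_deriv ?_
      ring
    have h3 : IsLocalMin (fun s => f (s, zs.2) - c - t * w s) zs.1 := by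
      filter_upwards [Icc_mem_nhds b1 b2] with x hx
      rw [hzero]
      exact hk (x, zs.2) ⟨hx, ⟨a3, a4⟩⟩
    exact sd_min h1 h2 h3
  have S2 : 0 ≤ py (py f) zs := by
    have h3 : IsLocalMin (fun s => f (zs.1, s)) zs.2 := by
      filter_upwards [Icc_mem_nhds b3 b4] with y hy
      have := hk (zs.1, y) ⟨⟨a1, a2⟩, hy⟩
      simp only at this
      linarith
    exact sd_min (fun y => hy hs zs.1 y) (hy (py_smooth hs) zs.1 zs.2) h3
  have S3 := hpde zs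
  rw [hfz] at S3
  have p1 := hpos zs.1 zs.2
  have p2 := hle zs.1 zs.2
  have p3 := hwle zs.1
  set ρ := α zs.1 + β zs.2 with hρ
  have q1 : 0 < ρ * c := mul_pos p1 hc0
  have q2 : ρ * w zs.1 ≤ K ^ 2 := by
    calc ρ * w zs.1 ≤ ρ * 1 := mul_le_mul_of_nonneg_left p3 p1.le
      _ ≤ K ^ 2 := by linarith
  have q3 : t * (2 * K ^ 2 - ρ * w zs.1) ≤ 0 :=
    mul_nonpos_of_nonpos_of_nonneg ht0.le (by nlinarith [sq_nonneg K])
  have q4 : -(ρ * (c + t * w zs.1)) + 2 * t * K ^ 2 = -(ρ * c) + t * (2 * K ^ 2 - ρ * w zs.1) := by ring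
  linarith

lemma sgn {g : ℝ → ℝ} (hg : Continuous g) {a b : ℝ} (h : ∀ x ∈ Icc a b, g x ≠ 0) {x y : ℝ}
    (hx : x ∈ Icc a b) (hy : y ∈ Icc a b) (hpos : 0 < g x) : 0 < g y := by
  by_contra hcon
  push Not at hcon
  obtain ⟨r, hr, hr0⟩ := intermediate_value_uIcc (a := x) (b := y) hg.continuousOn
    (show (0 : ℝ) ∈ uIcc (g x) (g y) from by rw [mem_uIcc]; right; exact ⟨hcon, hpos.le⟩)
  have : r ∈ Icc a b := by
    have h1 : uIcc x y ⊆ Icc a b := by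
      rw [← uIcc_of_le (hx.1.trans hx.2)]
      apply uIcc_subset_uIcc
      · rw [uIcc_of_le (hx.1.trans hx.2)]; exact hx
      · rw [uIcc_of_le (hx.1.trans hx.2)]; exact hy
    exact h1 hr
  exact h r this hr0

/-- if a solution has a zero in a small rectangle, then it has one on its boundary -/
lemma maxp {α β : ℝ → ℝ} {f : ℝ × ℝ → ℝ} (hs : ContDiff ℝ ∞ f)
    (hpde : ∀ z, px (px f) z + py (py f) z = -((α z.1 + β z.2) * f z)) {K : ℝ} (hK : 0 < K)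
    (hpos : ∀ x y, 0 < α x + β y) (hle : ∀ x y, α x + β y ≤ K ^ 2) {x₀ x₁ y₀ y₁ : ℝ}
    (hx₀₁ : x₀ ≤ x₁) (hy₀₁ : y₀ ≤ y₁) (hsmall : K * (x₁ - x₀) < 1)
    (hz : ∃ z ∈ Icc x₀ x₁ ×ˢ Icc y₀ y₁, f z = 0) :
    ∃ z ∈ Icc x₀ x₁ ×ˢ Icc y₀ y₁, bd x₀ x₁ y₀ y₁ z ∧ f z = 0 := by
  by_contra hcon
  push Not at hcon
  obtain ⟨z, hzQ, hz0⟩ := hz
  -- general argument for a positive corner
  have key : ∀ g : ℝ × ℝ → ℝ, ContDiff ℝ ∞ g →
      (∀ z, px (px g) z + py (py g) z = -((α z.1 + β z.2) * g z)) →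
      (∀ z ∈ Icc x₀ x₁ ×ˢ Icc y₀ y₁, bd x₀ x₁ y₀ y₁ z → g z ≠ 0) → 0 < g (x₀, y₀) →
      ∀ z ∈ Icc x₀ x₁ ×ˢ Icc y₀ y₁, 0 < g z := by
    intro g hg hgp hgb hg0
    apply maxp_pos hg hgp hK hpos hle hx₀₁ hy₀₁ hsmall
    have cx : ∀ y, Continuous fun s => g (s, y) := fun y =>
      hg.continuous.comp (continuous_id.prodMk continuous_const)
    have cy : ∀ x, Continuous fun s => g (x, s) := fun x =>
      hg.continuous.comp (continuous_const.prodMk continuous_id)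
    have lx : x₀ ∈ Icc x₀ x₁ := ⟨le_rfl, hx₀₁⟩
    have rx : x₁ ∈ Icc x₀ x₁ := ⟨hx₀₁, le_rfl⟩
    have ly : y₀ ∈ Icc y₀ y₁ := ⟨le_rfl, hy₀₁⟩
    have ry : y₁ ∈ Icc y₀ y₁ := ⟨hy₀₁, le_rfl⟩
    have left : ∀ y ∈ Icc y₀ y₁, 0 < g (x₀, y) := fun y hy =>
      sgn (cy x₀) (fun s hs => hgb (x₀, s) ⟨lx, hs⟩ (Or.inl rfl)) ly hy hg0
    have bot : ∀ x ∈ Icc x₀ x₁, 0 < g (x, y₀) := fun x hx =>
      sgn (cx y₀) (fun s hs => hgb (s, y₀) ⟨hs, ly⟩ (Or.inr (Or.inr (Or.inl rfl)))) lx hx hg0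
    have right : ∀ y ∈ Icc y₀ y₁, 0 < g (x₁, y) := fun y hy =>
      sgn (cy x₁) (fun s hs => hgb (x₁, s) ⟨rx, hs⟩ (Or.inr (Or.inl rfl))) ly hy (bot x₁ rx)
    have top : ∀ x ∈ Icc x₀ x₁, 0 < g (x, y₁) := fun x hx =>
      sgn (cx y₁) (fun s hs => hgb (s, y₁) ⟨hs, ry⟩ (Or.inr (Or.inr (Or.inr rfl)))) lx hx (left y₁ ry)
    rintro ⟨x, y⟩ ⟨hx, hy⟩ hbd
    rcases hbd with h | h | h | h
    · simp only at h; rw [h]; exact left y hy
    · simp only at h; rw [h]; exact right y hy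
    · simp only at h; rw [h]; exact bot x hx
    · simp only at h; rw [h]; exact top x hx
  have hc : f (x₀, y₀) ≠ 0 := hcon (x₀, y₀) ⟨⟨le_rfl, hx₀₁⟩, ⟨le_rfl, hy₀₁⟩⟩ (Or.inl rfl)
  rcases lt_or_gt_of_ne hc with h | h
  · have h1 := key ((-1 : ℝ) • f) (contDiff_const.smul hs) (fun z => by
        rw [px_smul _ hs, py_smul _ hs, px_smul _ (px_smooth hs), py_smul _ (py_smooth hs)]
        have := hpde z
        simp only [Pi.smul_apply, smul_eq_mul]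
        linarith) (fun z hz hb h0 => hcon z hz hb (by simpa using h0)) (by simpa using h) z hzQ
    simp only [Pi.smul_apply, smul_eq_mul, hz0, mul_zero] at h1
    exact lt_irrefl _ h1
  · have h1 := key f hs hpde hcon h z hzQ
    rw [hz0] at h1
    exact lt_irrefl _ h1

end Pool.Agent.Q167.LV
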