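import Mathlib
import Pool.Agent.Q167.LV.Eight
set_option autoImplicit false

/-! # The length of the nodal set -/

namespace Pool.Agent.Q167.LV

open Set Filter Topology MeasureTheory Measure
open scoped ContDiff ENNReal

lemma cnt1 (n : ℕ) (W : ℕ → Finset ℕ) (M : ℝ) (hM : ∀ i, ((W i).card : ℝ) ≤ M) (δ ε : ℕ) :
    ((((Finset.range n ×ˢ Finset.range n).filter fun p : ℕ × ℕ => p.2 + ε ∈ W (p.1 + δ)).card : ℕ) : ℝ) ≤ n * M := by
  have h1 : ((Finset.range n ×ˢ Finset.range n).filter fun p : ℕ × ℕ => p.2 + ε ∈ W (p.1 + δ)).card ≤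
      ((Finset.range n).sigma fun i => W (i + δ)).card := by
    apply Finset.card_le_card_of_injOn (fun p : ℕ × ℕ => (⟨p.1, p.2 + ε⟩ : Σ _ : ℕ, ℕ))
    · intro p hp
      simp only [Finset.coe_filter, Finset.mem_product, Finset.mem_range, mem_ofPred_eq] at hp
      simp only [Finset.coe_sigma, Set.mem_sigma_iff, Finset.mem_coe, Finset.mem_range]
      exact ⟨hp.1.1, hp.2⟩
    · rintro ⟨a, b⟩ - ⟨c, d⟩ - h
      simp only [Sigma.mk.injEq, heq_eq_eq, Nat.add_right_cancel_iff] at h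
      exact Prod.ext h.1 h.2
  rw [Finset.card_sigma] at h1
  calc ((_ : ℕ) : ℝ) ≤ ((∑ i ∈ Finset.range n, (W (i + δ)).card : ℕ) : ℝ) := by exact_mod_cast h1
    _ = ∑ i ∈ Finset.range n, ((W (i + δ)).card : ℝ) := by push_cast; rfl
    _ ≤ ∑ _i ∈ Finset.range n, M := Finset.sum_le_sum fun i _ => hM _
    _ = n * M := by simp

lemma cnt2 (n : ℕ) (W : ℕ → Finset ℕ) (M : ℝ) (hM : ∀ i, ((W i).card : ℝ) ≤ M) (δ ε : ℕ) :
    ((((Finset.range n ×ˢ Finset.range n).filter fun p : ℕ × ℕ => p.1 + ε ∈ W (p.2 + δ)).card : ℕ) : ℝ) ≤ n * M := by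
  have h1 : ((Finset.range n ×ˢ Finset.range n).filter fun p : ℕ × ℕ => p.1 + ε ∈ W (p.2 + δ)).card ≤
      ((Finset.range n ×ˢ Finset.range n).filter fun p : ℕ × ℕ => p.2 + ε ∈ W (p.1 + δ)).card := by
    apply Finset.card_le_card_of_injOn Prod.swap
    · intro p hp
      simp only [Finset.coe_filter, Finset.mem_product, Finset.mem_range, mem_ofPred_eq] at hp ⊢
      exact ⟨⟨hp.1.2, hp.1.1⟩, hp.2⟩
    · exact Prod.swap_injective.injOn
  calc ((_ : ℕ) : ℝ) ≤ ((_ : ℕ) : ℝ) := by exact_mod_cast h1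
    _ ≤ _ := cnt1 n W M hM δ ε

lemma exists_good {L : ℝ} (hL : 0 < L) {u : ℝ → ℝ} (hu : Function.Periodic u L) {M : ℝ}
    (hc : ∀ n, 0 < n → ZZ L u n → (n : ℝ) ≤ M) {d : ℝ} (hd : 0 < d) :
    ∃ s, -d < s ∧ s < 0 ∧ ∀ i : ℕ, u (s + i * d) ≠ 0 := by
  have h1 : (⋃ i : ℕ, (fun s : ℝ => s + i * d) ⁻¹' {x | u x = 0}).Countable :=
    countable_iUnion fun i => (zeros_countable hL hu hc).preimage (add_left_injective _)
  obtain ⟨s, hs1, hs2⟩ := (h1.dense_compl ℝ).exists_mem_open isOpen_Ioo (nonempty_Ioo.2 (neg_lt_zero.2 hd))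
  refine ⟨s, hs2.1, hs2.2, fun i hi => hs1 ?_⟩
  exact mem_iUnion.2 ⟨i, hi⟩

variable {L₁ L₂ : ℝ} {α β : ℝ → ℝ} {K : ℝ} {f : ℝ × ℝ → ℝ}

lemma cover (h₁ : 0 < L₁) (h₂ : 0 < L₂) (hα : ContDiff ℝ ∞ α) (hβ : ContDiff ℝ ∞ β)
    (hαp : Function.Periodic α L₁) (hβp : Function.Periodic β L₂) (hK : 0 < K)
    (hpos : ∀ x y, 0 < α x + β y) (hle : ∀ x y, α x + β y ≤ K ^ 2) (hf : Sol L₁ L₂ α β f)
    (hne : ∃ z, f z ≠ 0) (N : ℕ) (hN : 0 < N) (hsm : K * (L₁ / N) < 1) :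
    ∃ (I : Finset (ℕ × ℕ)) (s t : ℝ), (I.card : ℝ) ≤ 12 * (N + 1) * K * (L₁ + L₂) ∧
      ∀ x y, 0 ≤ x → x ≤ L₁ → 0 ≤ y → y ≤ L₂ → f (x, y) = 0 → ∃ p ∈ I,
        (s + p.1 * (L₁ / N) ≤ x ∧ x ≤ s + (p.1 + 1) * (L₁ / N)) ∧
        (t + p.2 * (L₂ / N) ≤ y ∧ y ≤ t + (p.2 + 1) * (L₂ / N)) := by
  classical
  obtain ⟨cx, cy⟩ := circle h₁ h₂ hα hβ hαp hβp hK hle hf
  have hN0 : (0 : ℝ) < N := by exact_mod_cast hN
  set d₁ := L₁ / N with hd₁
  set d₂ := L₂ / N with hd₂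
  have hd₁0 : 0 < d₁ := by positivity
  have hd₂0 : 0 < d₂ := by positivity
  have hNd₁ : N * d₁ = L₁ := mul_div_cancel₀ _ hN0.ne'
  have hNd₂ : N * d₂ = L₂ := mul_div_cancel₀ _ hN0.ne'
  obtain ⟨⟨xs, ys⟩, hz⟩ := hne
  obtain ⟨s, hs1, hs2, hs⟩ := exists_good h₁ (u := fun x => f (x, ys)) (fun x => hf.per.1 x ys)
    (cx ys ⟨xs, hz⟩) hd₁0
  obtain ⟨t, ht1, ht2, ht⟩ := exists_good h₂ (u := fun y => f (xs, y)) (fun y => hf.per.2 xs y)
    (cy xs ⟨ys, hz⟩) hd₂0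
  -- zeros on the lines
  set V : ℕ → Finset ℕ := fun i => (Finset.range (N + 2)).filter fun j =>
    ∃ z, t + j * d₂ ≤ z ∧ z < t + (j + 1) * d₂ ∧ f (s + i * d₁, z) = 0 with hV
  set H : ℕ → Finset ℕ := fun j => (Finset.range (N + 2)).filter fun i =>
    ∃ z, s + i * d₁ ≤ z ∧ z < s + (i + 1) * d₁ ∧ f (z, t + j * d₂) = 0 with hH
  have hVc : ∀ i, ((V i).card : ℝ) ≤ 3 * (L₂ * K) := by
    intro i
    apply line_count h₂ (u := fun y => f (s + i * d₁, y)) (fun y => hf.per.2 _ y) (by positivity)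
      (cy _ ⟨ys, hs i⟩) t hN
    intro j hj
    simp only [hV, Finset.mem_filter, Finset.mem_range] at hj
    exact hj
  have hHc : ∀ j, ((H j).card : ℝ) ≤ 3 * (L₁ * K) := by
    intro j
    apply line_count h₁ (u := fun x => f (x, t + j * d₂)) (fun x => hf.per.1 x _) (by positivity)
      (cx _ ⟨xs, ht j⟩) s hN
    intro i hi
    simp only [hH, Finset.mem_filter, Finset.mem_range] at hi
    exact hi
  set R := Finset.range (N + 1) ×ˢ Finset.range (N + 1) with hR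
  set I := R.filter fun p : ℕ × ℕ => ∃ z ∈ Icc (s + p.1 * d₁) (s + (p.1 + 1) * d₁) ×ˢ
    Icc (t + p.2 * d₂) (t + (p.2 + 1) * d₂), f z = 0 with hI
  set A : ℕ → ℕ → Finset (ℕ × ℕ) := fun δ ε => R.filter fun p : ℕ × ℕ => p.2 + ε ∈ V (p.1 + δ) with hA
  set B : ℕ → ℕ → Finset (ℕ × ℕ) := fun δ ε => R.filter fun p : ℕ × ℕ => p.1 + ε ∈ H (p.2 + δ) with hB
  have hAc : ∀ δ ε, ((A δ ε).card : ℝ) ≤ (N + 1) * (3 * (L₂ * K)) := by
    intro δ ε
    have := cnt1 (N + 1) V _ hVc δ ε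
    push_cast at this
    exact this
  have hBc : ∀ δ ε, ((B δ ε).card : ℝ) ≤ (N + 1) * (3 * (L₁ * K)) := by
    intro δ ε
    have := cnt2 (N + 1) H _ hHc δ ε
    push_cast at this
    exact this
  have hsub : I ⊆ ((A 0 0 ∪ A 0 1) ∪ (A 1 0 ∪ A 1 1)) ∪ ((B 0 0 ∪ B 0 1) ∪ (B 1 0 ∪ B 1 1)) := by
    rintro ⟨i, j⟩ hp
    simp only [hI, Finset.mem_filter] at hp
    obtain ⟨hpR, z, hzQ, hz0⟩ := hp
    have hpR' : i < N + 1 ∧ j < N + 1 := by simpa [hR] using hpR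
    have hx01 : s + i * d₁ ≤ s + (i + 1) * d₁ := by nlinarith
    have hy01 : t + j * d₂ ≤ t + (j + 1) * d₂ := by nlinarith
    obtain ⟨⟨x, y⟩, ⟨hx, hy⟩, hbd, hw0⟩ := maxp hf.smooth hf.pde hK hpos hle hx01 hy01
      (by have : s + (i + 1) * d₁ - (s + i * d₁) = d₁ := by ring
          rw [this]; exact hsm) ⟨z, hzQ, hz0⟩
    simp only [bd] at hbd
    change x ∈ Icc (s + i * d₁) (s + (i + 1) * d₁) at hx
    change y ∈ Icc (t + j * d₂) (t + (j + 1) * d₂) at hy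
    -- membership in V
    have memV : ∀ δ : ℕ, δ < 2 → x = s + (i + δ : ℕ) * d₁ → (i, j) ∈ A δ 0 ∨ (i, j) ∈ A δ 1 := by
      intro δ _ hx'
      rcases lt_or_eq_of_le hy.2 with h | h
      · left
        simp only [hA, hV, Finset.mem_filter, Finset.mem_range]
        refine ⟨hpR, by omega, y, ?_, ?_, ?_⟩
        · simpa using hy.1
        · simpa using h
        · rw [← hx']; exact hw0
      · right
        simp only [hA, hV, Finset.mem_filter, Finset.mem_range]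
        refine ⟨hpR, by omega, y, ?_, ?_, ?_⟩
        · rw [h]; push_cast; exact le_rfl
        · rw [h]; push_cast; nlinarith
        · rw [← hx']; exact hw0
    have memH : ∀ δ : ℕ, δ < 2 → y = t + (j + δ : ℕ) * d₂ → (i, j) ∈ B δ 0 ∨ (i, j) ∈ B δ 1 := by
      intro δ _ hy'
      rcases lt_or_eq_of_le hx.2 with h | h
      · left
        simp only [hB, hH, Finset.mem_filter, Finset.mem_range]
        refine ⟨hpR, by omega, x, ?_, ?_, ?_⟩
        · simpa using hx.1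
        · simpa using h
        · rw [← hy']; exact hw0
      · right
        simp only [hB, hH, Finset.mem_filter, Finset.mem_range]
        refine ⟨hpR, by omega, x, ?_, ?_, ?_⟩
        · rw [h]; push_cast; exact le_rfl
        · rw [h]; push_cast; nlinarith
        · rw [← hy']; exact hw0
    simp only [Finset.mem_union]
    rcases hbd with h | h | h | h
    · have := memV 0 (by norm_num) (by rw [h]; simp)
      tauto
    · have := memV 1 (by norm_num) (by rw [h]; push_cast; ring)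
      tauto
    · have := memH 0 (by norm_num) (by rw [h]; simp)
      tauto
    · have := memH 1 (by norm_num) (by rw [h]; push_cast; ring)
      tauto
  refine ⟨I, s, t, ?_, ?_⟩
  · have u4 : ∀ a b c d : Finset (ℕ × ℕ), (((a ∪ b) ∪ (c ∪ d)).card : ℝ) ≤ a.card + b.card + (c.card + d.card) := by
      intro a b c d
      have := (Finset.card_union_le (a ∪ b) (c ∪ d)).trans
        (add_le_add (Finset.card_union_le a b) (Finset.card_union_le c d))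
      exact_mod_cast this
    have h3 : (I.card : ℝ) ≤ (((A 0 0 ∪ A 0 1) ∪ (A 1 0 ∪ A 1 1)).card : ℝ) +
        (((B 0 0 ∪ B 0 1) ∪ (B 1 0 ∪ B 1 1)).card : ℝ) := by
      exact_mod_cast (Finset.card_le_card hsub).trans (Finset.card_union_le _ _)
    have h4 := u4 (A 0 0) (A 0 1) (A 1 0) (A 1 1)
    have h5 := u4 (B 0 0) (B 0 1) (B 1 0) (B 1 1)
    have a00 := hAc 0 0
    have a01 := hAc 0 1
    have a10 := hAc 1 0
    have a11 := hAc 1 1
    have b00 := hBc 0 0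
    have b01 := hBc 0 1
    have b10 := hBc 1 0
    have b11 := hBc 1 1
    calc (I.card : ℝ) ≤ 4 * ((N + 1) * (3 * (L₂ * K))) + 4 * ((N + 1) * (3 * (L₁ * K))) := by linarith
      _ = 12 * (N + 1) * K * (L₁ + L₂) := by ring
  · intro x y hx0 hx1 hy0 hy1 hxy
    have loc : ∀ (s d L x : ℝ), 0 < d → N * d = L → -d < s → s < 0 → 0 ≤ x → x ≤ L →
        ∃ i : ℕ, i < N + 1 ∧ s + i * d ≤ x ∧ x ≤ s + (i + 1) * d := by
      intro s d L x hd hNd hs1 hs2 hx0 hx1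
      have hq : 0 ≤ (x - s) / d := div_nonneg (by linarith) hd.le
      have e1 := Nat.floor_le hq
      have e2 := Nat.lt_floor_add_one ((x - s) / d)
      rw [le_div_iff₀ hd] at e1
      rw [div_lt_iff₀ hd] at e2
      refine ⟨⌊(x - s) / d⌋₊, ?_, by linarith, by linarith⟩
      rw [Nat.floor_lt hq, div_lt_iff₀ hd]
      push_cast
      nlinarith
    obtain ⟨i, hi1, hi2, hi3⟩ := loc s d₁ L₁ x hd₁0 hNd₁ hs1 hs2 hx0 hx1
    obtain ⟨j, hj1, hj2, hj3⟩ := loc t d₂ L₂ y hd₂0 hNd₂ ht1 ht2 hy0 hy1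
    refine ⟨(i, j), ?_, ⟨hi2, hi3⟩, ⟨hj2, hj3⟩⟩
    simp only [hI, hR, Finset.mem_filter, Finset.mem_product, Finset.mem_range]
    exact ⟨⟨hi1, hj1⟩, (x, y), ⟨⟨hi2, hi3⟩, ⟨hj2, hj3⟩⟩, hxy⟩

theorem nodal (h₁ : 0 < L₁) (h₂ : 0 < L₂) (hα : ContDiff ℝ ∞ α) (hβ : ContDiff ℝ ∞ β)
    (hαp : Function.Periodic α L₁) (hβp : Function.Periodic β L₂) (hK : 0 < K)
    (hpos : ∀ x y, 0 < α x + β y) (hle : ∀ x y, α x + β y ≤ K ^ 2) (hf : Sol L₁ L₂ α β f)
    (hne : ∃ z, f z ≠ 0) :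
    μH[1] {z : ℂ | (0 ≤ z.re ∧ z.re ≤ L₁) ∧ (0 ≤ z.im ∧ z.im ≤ L₂) ∧ f (z.re, z.im) = 0} ≤
      ENNReal.ofReal (12 * (L₁ + L₂) ^ 2 * K) := by
  choose! I s t hcard hcov using cover h₁ h₂ hα hβ hαp hβp hK hpos hle hf hne
  have hL : 0 < L₁ + L₂ := by positivity
  -- eventually the squares are small
  have hev : ∀ᶠ N : ℕ in atTop, 0 < N ∧ K * (L₁ / N) < 1 := by
    have h3 : Tendsto (fun N : ℕ => K * (L₁ / N)) atTop (𝓝 (K * 0)) :=
      (tendsto_const_div_atTop_nhds_zero_nat L₁).const_mul K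
    rw [mul_zero] at h3
    exact (eventually_gt_atTop 0).and (h3.eventually (gt_mem_nhds one_pos))
  have hr : Tendsto (fun N : ℕ => ENNReal.ofReal ((L₁ + L₂) / N)) atTop (𝓝 0) := by
    have h3 := (ENNReal.continuous_ofReal.tendsto 0).comp (tendsto_const_div_atTop_nhds_zero_nat (L₁ + L₂))
    rw [ENNReal.ofReal_zero] at h3
    exact h3
  set Q : ∀ N : ℕ, ↥(I N) → Set ℂ := fun N p =>
    {z : ℂ | (s N + p.1.1 * (L₁ / N) ≤ z.re ∧ z.re ≤ s N + (p.1.1 + 1) * (L₁ / N)) ∧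
      (t N + p.1.2 * (L₂ / N) ≤ z.im ∧ z.im ≤ t N + (p.1.2 + 1) * (L₂ / N))} with hQ
  have hdiam : ∀ N p, Metric.ediam (Q N p) ≤ ENNReal.ofReal ((L₁ + L₂) / N) := by
    intro N p
    apply Metric.ediam_le
    intro z hz w hw
    rw [edist_dist, dist_eq_norm]
    apply ENNReal.ofReal_le_ofReal
    refine (Complex.norm_le_abs_re_add_abs_im _).trans ?_
    simp only [hQ, mem_ofPred_eq] at hz hw
    obtain ⟨⟨z1, z2⟩, ⟨z3, z4⟩⟩ := hz
    obtain ⟨⟨w1, w2⟩, ⟨w3, w4⟩⟩ := hw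
    have e1 : |(z - w).re| ≤ L₁ / N := by
      rw [Complex.sub_re, abs_le]
      constructor <;> linarith
    have e2 : |(z - w).im| ≤ L₂ / N := by
      rw [Complex.sub_im, abs_le]
      constructor <;> linarith
    calc _ ≤ L₁ / N + L₂ / N := add_le_add e1 e2
      _ = (L₁ + L₂) / N := by ring
  refine le_trans (hausdorffMeasure_le_liminf_sum 1 _ (l := atTop)
    (fun N : ℕ => ENNReal.ofReal ((L₁ + L₂) / N)) hr Q (Eventually.of_forall fun N p => hdiam N p) ?_) ?_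
  · filter_upwards [hev] with N hN z hz
    obtain ⟨⟨z1, z2⟩, ⟨z3, z4⟩, z5⟩ := hz
    obtain ⟨p, hp, h3, h4⟩ := hcov N hN.1 hN.2 _ _ z1 z2 z3 z4 z5
    exact mem_iUnion.2 ⟨⟨p, hp⟩, h3, h4⟩
  · have hlim : Tendsto (fun N : ℕ => ENNReal.ofReal (12 * (L₁ + L₂) ^ 2 * K * (1 + 1 / N))) atTop
        (𝓝 (ENNReal.ofReal (12 * (L₁ + L₂) ^ 2 * K))) := by
      apply (ENNReal.continuous_ofReal.tendsto _).comp
      have h3 : Tendsto (fun N : ℕ => 12 * (L₁ + L₂) ^ 2 * K * (1 + 1 / (N : ℝ))) atTop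
          (𝓝 (12 * (L₁ + L₂) ^ 2 * K * (1 + 0))) :=
        (tendsto_const_nhds.add (tendsto_const_div_atTop_nhds_zero_nat 1)).const_mul _
      simpa using h3
    rw [← hlim.liminf_eq]
    refine liminf_le_liminf ?_ (by isBoundedDefault) (by isBoundedDefault)
    filter_upwards [hev] with N hN
    have hN0 : (0 : ℝ) < N := by exact_mod_cast hN.1
    calc ∑ p : ↥(I N), Metric.ediam (Q N p) ^ (1 : ℝ) ≤ ∑ _p : ↥(I N), ENNReal.ofReal ((L₁ + L₂) / N) := by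
          apply Finset.sum_le_sum
          intro p _
          rw [ENNReal.rpow_one]
          exact hdiam N p
      _ = ((I N).card : ℝ≥0∞) * ENNReal.ofReal ((L₁ + L₂) / N) := by
          rw [Finset.sum_const, Finset.card_univ, Fintype.card_coe, nsmul_eq_mul]
      _ = ENNReal.ofReal ((I N).card * ((L₁ + L₂) / N)) := by
          rw [ENNReal.ofReal_mul (Nat.cast_nonneg _), ENNReal.ofReal_natCast]
      _ ≤ ENNReal.ofReal (12 * (L₁ + L₂) ^ 2 * K * (1 + 1 / N)) := by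
          apply ENNReal.ofReal_le_ofReal
          have h3 := mul_le_mul_of_nonneg_right (hcard N hN.1 hN.2) (show 0 ≤ (L₁ + L₂) / N by positivity)
          refine h3.trans (le_of_eq ?_)
          field_simp

end Pool.Agent.Q167.LV
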